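import Pool.Agent.Lib_helper81.Robin.Base

/-! # Robin project, block CA -/

namespace Pool.Agent.Lib_helper81.Robin

open Pool.Agent.Lib_helper13.Robin
open MeasureTheory Set Metric Filter Topology
open scoped RealInnerProductSpace ContDiff

noncomputable section

variable {d m : ℕ} {P : PD d m} {ι : Type} [Fintype ι] {T T' : ι → E d → ℝ}

theorem tend_ratio {s : ℝ} (hs : 0 ≤ s) :
    Tendsto (fun n : ℕ => ((n : ℝ) + 1) / √(((n : ℝ) + 1) ^ 2 + s)) atTop (𝓝 1) := by
  have h1 : Tendsto (fun n : ℕ => ((n : ℝ) + 1)) atTop atTop :=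
    tendsto_atTop_add_const_right _ _ tendsto_natCast_atTop_atTop
  have h2 : Tendsto (fun n : ℕ => 1 - s / ((n : ℝ) + 1) ^ 2) atTop (𝓝 1) := by
    have : Tendsto (fun n : ℕ => s / ((n : ℝ) + 1) ^ 2) atTop (𝓝 0) :=
      Tendsto.div_atTop tendsto_const_nhds ((tendsto_pow_atTop two_ne_zero).comp h1)
    simpa using tendsto_const_nhds.sub this
  refine tendsto_of_tendsto_of_tendsto_of_le_of_le h2 tendsto_const_nhds ?_ ?_
  · intro n
    have hd : (0 : ℝ) < (n : ℝ) + 1 := by positivity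
    set δ : ℝ := (n : ℝ) + 1 with hδ
    have h3 : δ ≤ √(δ ^ 2 + s) := Real.le_sqrt_of_sq_le (by linarith)
    have h4 : 0 < √(δ ^ 2 + s) := hd.trans_le h3
    have h5 : √(δ ^ 2 + s) ^ 2 = δ ^ 2 + s := Real.sq_sqrt (by positivity)
    change 1 - s / δ ^ 2 ≤ δ / √(δ ^ 2 + s)
    rw [le_div_iff₀ h4]
    have h6 : 1 - s / δ ^ 2 ≤ δ ^ 2 / (δ ^ 2 + s) := by
      rw [le_div_iff₀ (by positivity)]
      have : s / δ ^ 2 * δ ^ 2 = s := by field_simp
      have h7 : 0 ≤ s / δ ^ 2 * s := by positivity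
      nlinarith
    calc (1 - s / δ ^ 2) * √(δ ^ 2 + s) ≤ δ ^ 2 / (δ ^ 2 + s) * √(δ ^ 2 + s) :=
          mul_le_mul_of_nonneg_right h6 h4.le
      _ = δ ^ 2 / √(δ ^ 2 + s) := by
          rw [div_mul_eq_mul_div, div_eq_div_iff (by positivity) h4.ne', mul_assoc, ← pow_two, h5]
      _ ≤ δ := by
          rw [div_le_iff₀ h4]; nlinarith
  · intro n
    have hd : (0 : ℝ) < (n : ℝ) + 1 := by positivity
    set δ : ℝ := (n : ℝ) + 1 with hδ
    have h3 : δ ≤ √(δ ^ 2 + s) := Real.le_sqrt_of_sq_le (by linarith)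
    exact div_le_one_of_le₀ h3 (Real.sqrt_nonneg _)

theorem ratio_le {δ : ℝ} (hδ : 0 < δ) (T : ι → E d → ℝ) (x : E d) :
    0 ≤ δ / G δ T x ∧ δ / G δ T x ≤ 1 :=
  ⟨div_nonneg hδ.le (G_pos hδ T x).le, div_le_one_of_le₀ (G_ge hδ T x) (G_pos hδ T x).le⟩

theorem norm_gG_eq {δ : ℝ} (hδ : 0 < δ) (T : ι → E d → ℝ) (x : E d) :
    ‖gG δ T x‖ ^ 2 ≤ sq T x * gsq T x / δ ^ 2 := by
  have hG := G_pos hδ T x
  have h1 : δ ^ 2 ≤ G δ T x ^ 2 := pow_le_pow_left₀ hδ.le (G_ge hδ T x) 2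
  rw [gG, norm_smul, norm_inv, Real.norm_of_nonneg hG.le, mul_pow, inv_pow]
  rw [inv_mul_le_iff₀ (by positivity)]
  have h2 : 0 ≤ sq T x * gsq T x / δ ^ 2 :=
    div_nonneg (mul_nonneg (sq_nn T x) (gsq_nn T x)) (by positivity)
  calc ‖tg T x‖ ^ 2 ≤ sq T x * gsq T x := norm_tg_sq_le T x
    _ = δ ^ 2 * (sq T x * gsq T x / δ ^ 2) := by field_simp
    _ ≤ _ := mul_le_mul_of_nonneg_right h1 h2

/-- **CA.** the identity for `|T|²` -/
theorem pp_I {V : Set (E d)} (hV : IsOpen V) (h : PP P T V) {ψ : E d → ℝ}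
    (hψ : ContDiff ℝ 1 ψ) (hc : HasCompactSupport ψ) (hs : tsupport ψ ⊆ V) :
    ∫ x in P.Om, ⟪tg T x, gradient ψ x⟫ = - ∫ x in P.Om, ψ x * gsq T x := by
  set K := tsupport ψ with hK
  have hKc : IsCompact K := hc
  have hsub : P.Om ∩ K ⊆ P.Om ∩ V := inter_subset_inter_right _ hs
  have hmeas : MeasurableSet (P.Om ∩ K) := P.measurableSet_Om.inter hKc.measurableSet
  obtain ⟨M, hM0, hM⟩ := grad_bdd hψ hc
  obtain ⟨M', hM0', hM'⟩ := fun_bdd hψ.continuous hc
  have i1 := h.int1 K hs hKc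
  have i2 := h.int2 K hs hKc
  have cg : ContinuousOn (gradient ψ) (P.Om ∩ K) := (cont_grad' hψ).continuousOn
  have cψ : ContinuousOn ψ (P.Om ∩ K) := hψ.continuous.continuousOn
  have e1 : ∫ x in P.Om, ⟪tg T x, gradient ψ x⟫ = ∫ x in P.Om ∩ K, ⟪tg T x, gradient ψ x⟫ :=
    setInt_supp _ fun x hx => by rw [grad_of_notMem hx, inner_zero_right]
  have e2 : ∫ x in P.Om, ψ x * gsq T x = ∫ x in P.Om ∩ K, ψ x * gsq T x :=
    setInt_supp _ fun x hx => by rw [image_eq_zero_of_notMem_tsupport hx, zero_mul]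
  rw [e1, e2]
  -- the two sequences
  set D : ℕ → ℝ := fun n => (n : ℝ) + 1 with hD
  have hDpos : ∀ n, 0 < D n := fun n => by simp only [hD]; positivity
  have lim1 : Tendsto (fun n => ∫ x in P.Om ∩ K, D n * ⟪gG (D n) T x, gradient ψ x⟫) atTop
      (𝓝 (∫ x in P.Om ∩ K, ⟪tg T x, gradient ψ x⟫)) := by
    apply tendsto_integral_of_dominated_convergence
      (bound := fun x => (sq T x + gsq T x) / 2 * M)
    · intro n
      have c1 := (sm_gG (hDpos n) hV h.sm).mono hsub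
      exact (continuousOn_const.mul (c1.inner cg)).aestronglyMeasurable hmeas
    · exact ((i1.add i2).div_const 2).mul_const M
    · intro n
      refine Eventually.of_forall fun x => ?_
      have h1 : D n * ⟪gG (D n) T x, gradient ψ x⟫
          = (D n / G (D n) T x) * ⟪tg T x, gradient ψ x⟫ := by
        rw [gG, real_inner_smul_left]; ring
      rw [h1, norm_mul, Real.norm_of_nonneg (ratio_le (hDpos n) T x).1]
      calc D n / G (D n) T x * ‖⟪tg T x, gradient ψ x⟫‖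
          ≤ 1 * (‖tg T x‖ * ‖gradient ψ x‖) :=
            mul_le_mul (ratio_le (hDpos n) T x).2 (norm_inner_le_norm _ _) (norm_nonneg _)
              zero_le_one
        _ ≤ (sq T x + gsq T x) / 2 * M := by
            rw [one_mul]
            exact mul_le_mul (norm_tg_le' T x) (hM x) (norm_nonneg _)
              (by have := sq_nn T x; have := gsq_nn T x; positivity)
    · refine Eventually.of_forall fun x => ?_
      have h1 : ∀ n, D n * ⟪gG (D n) T x, gradient ψ x⟫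
          = (D n / √((D n) ^ 2 + sq T x)) * ⟪tg T x, gradient ψ x⟫ := fun n => by
        rw [gG, real_inner_smul_left, G]; ring
      simp only [h1]
      simpa using (tend_ratio (sq_nn T x)).mul_const ⟪tg T x, gradient ψ x⟫
  have lim2 : Tendsto (fun n => - ∫ x in P.Om ∩ K, D n * (ψ x * eG (D n) T x)) atTop
      (𝓝 (- ∫ x in P.Om ∩ K, ψ x * gsq T x)) := by
    apply Tendsto.neg
    apply tendsto_integral_of_dominated_convergence (bound := fun x => M' * gsq T x)
    · intro n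
      have c1 := (sm_eG (hDpos n) hV h.sm).mono hsub
      exact (continuousOn_const.mul (cψ.mul c1)).aestronglyMeasurable hmeas
    · exact i2.const_mul M'
    · intro n
      refine Eventually.of_forall fun x => ?_
      have h1 : ‖D n * (ψ x * eG (D n) T x)‖ = |ψ x| * (D n * eG (D n) T x) := by
        rw [norm_mul, norm_mul, Real.norm_of_nonneg (hDpos n).le,
          Real.norm_of_nonneg (eG_nn (hDpos n) T x), Real.norm_eq_abs]
        ring
      rw [h1]
      apply mul_le_mul (hM' x) _ (mul_nonneg (hDpos n).le (eG_nn (hDpos n) T x)) hM0'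
      have := eG_le (hDpos n) T x
      calc D n * eG (D n) T x ≤ D n * (gsq T x / D n) :=
            mul_le_mul_of_nonneg_left this (hDpos n).le
        _ = gsq T x := by have := (hDpos n).ne'; field_simp
    · refine Eventually.of_forall fun x => ?_
      have h1 : ∀ n, D n * (ψ x * eG (D n) T x)
          = ψ x * ((D n / √((D n) ^ 2 + sq T x)) * (gsq T x - ‖gG (D n) T x‖ ^ 2)) := fun n => by
        rw [eG, G]; ring
      simp only [h1]
      have h2 : Tendsto (fun n => ‖gG (D n) T x‖ ^ 2) atTop (𝓝 0) := by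
        refine squeeze_zero (fun n => by positivity) (fun n => norm_gG_eq (hDpos n) T x) ?_
        have h1 : Tendsto (fun n : ℕ => ((n : ℝ) + 1)) atTop atTop :=
          tendsto_atTop_add_const_right _ _ tendsto_natCast_atTop_atTop
        exact Tendsto.div_atTop tendsto_const_nhds ((tendsto_pow_atTop two_ne_zero).comp h1)
      have h3 := (tend_ratio (sq_nn T x)).mul ((tendsto_const_nhds (x := gsq T x)).sub h2)
      simpa using h3.const_mul (ψ x)
  refine tendsto_nhds_unique lim1 (lim2.congr fun n => ?_)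
  rw [integral_const_mul, integral_const_mul]
  have h1 := h.eq (D n) (hDpos n) ψ hψ hc hs
  have e3 : ∫ x in P.Om, ⟪gG (D n) T x, gradient ψ x⟫
      = ∫ x in P.Om ∩ K, ⟪gG (D n) T x, gradient ψ x⟫ :=
    setInt_supp _ fun x hx => by rw [grad_of_notMem hx, inner_zero_right]
  have e4 : ∫ x in P.Om, ψ x * eG (D n) T x = ∫ x in P.Om ∩ K, ψ x * eG (D n) T x :=
    setInt_supp _ fun x hx => by rw [image_eq_zero_of_notMem_tsupport hx, zero_mul]
  rw [e3, e4] at h1
  rw [h1]; ring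

theorem int_bdd_mul {S : Set (E d)} (hS : MeasurableSet S) {f g : E d → ℝ} {M : ℝ}
    (hg : IntegrableOn g S) (hf : ContinuousOn f S) (hM : ∀ x, |f x| ≤ M) :
    IntegrableOn (fun x => f x * g x) S :=
  Integrable.bdd_mul (c := M) hg (hf.aestronglyMeasurable hS) (Eventually.of_forall hM)

/-- **CA.** Caccioppoli -/
theorem caccioppoli {V : Set (E d)} (hV : IsOpen V) (h : PP P T V) {ψ : E d → ℝ}
    (hψ : ContDiff ℝ 1 ψ) (hc : HasCompactSupport ψ) (hs : tsupport ψ ⊆ V) :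
    ∫ x in P.Om, ψ x ^ 2 * gsq T x ≤ 4 * ∫ x in P.Om, ‖gradient ψ x‖ ^ 2 * sq T x := by
  set K := tsupport ψ with hK
  have hKc : IsCompact K := hc
  have hsub : P.Om ∩ K ⊆ P.Om ∩ V := inter_subset_inter_right _ hs
  have hmeas : MeasurableSet (P.Om ∩ K) := P.measurableSet_Om.inter hKc.measurableSet
  obtain ⟨M, hM0, hM⟩ := grad_bdd hψ hc
  obtain ⟨M', hM0', hM'⟩ := fun_bdd hψ.continuous hc
  have i1 := h.int1 K hs hKc
  have i2 := h.int2 K hs hKc
  have cg : ContinuousOn (gradient ψ) (P.Om ∩ K) := (cont_grad' hψ).continuousOn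
  have cψ : ContinuousOn ψ (P.Om ∩ K) := hψ.continuous.continuousOn
  have ct := (sm_tg hV h.sm).mono hsub
  -- apply `pp_I` to `ψ²`
  have hψ2 : ContDiff ℝ 1 fun x => ψ x * ψ x := hψ.mul hψ
  have hsupp : tsupport (fun x => ψ x * ψ x) ⊆ K := by
    apply closure_mono
    intro x hx
    rw [Function.mem_support] at hx ⊢
    intro h0; exact hx (by rw [h0, zero_mul])
  have hc2 : HasCompactSupport fun x => ψ x * ψ x :=
    hKc.of_isClosed_subset (isClosed_tsupport _) hsupp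
  have key := pp_I hV h hψ2 hc2 (hsupp.trans hs)
  have e1 : ∫ x in P.Om, ⟪tg T x, gradient (fun x => ψ x * ψ x) x⟫
      = ∫ x in P.Om ∩ K, 2 * (ψ x * ⟪tg T x, gradient ψ x⟫) := by
    rw [setInt_supp (K := K) _ fun x hx => by
      rw [grad_of_notMem fun h => hx (hsupp h), inner_zero_right]]
    apply setIntegral_congr_fun hmeas
    intro x _
    have hd : DifferentiableAt ℝ ψ x := hψ.differentiable one_ne_zero x
    simp only []
    rw [grad_mul hd hd, inner_add_right, real_inner_smul_right]; ring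
  have e2 : ∫ x in P.Om, (ψ x * ψ x) * gsq T x = ∫ x in P.Om ∩ K, ψ x ^ 2 * gsq T x := by
    rw [setInt_supp (K := K) _ fun x hx => by
      rw [image_eq_zero_of_notMem_tsupport hx, zero_mul, zero_mul]]
    apply setIntegral_congr_fun hmeas
    intro x _; simp only []; ring
  have e3 : ∫ x in P.Om, ψ x ^ 2 * gsq T x = ∫ x in P.Om ∩ K, ψ x ^ 2 * gsq T x :=
    setInt_supp _ fun x hx => by rw [image_eq_zero_of_notMem_tsupport hx]; ring
  have e4 : ∫ x in P.Om, ‖gradient ψ x‖ ^ 2 * sq T x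
      = ∫ x in P.Om ∩ K, ‖gradient ψ x‖ ^ 2 * sq T x :=
    setInt_supp _ fun x hx => by rw [grad_of_notMem hx]; simp
  rw [e1, e2] at key
  rw [e3, e4]
  have j1 : IntegrableOn (fun x => ψ x ^ 2 * gsq T x) (P.Om ∩ K) := by
    apply int_bdd_mul hmeas i2 (cψ.pow 2) (M := M' ^ 2)
    intro x
    change |ψ x ^ 2| ≤ _
    rw [abs_pow]
    exact pow_le_pow_left₀ (abs_nonneg _) (hM' x) 2
  have j2 : IntegrableOn (fun x => ‖gradient ψ x‖ ^ 2 * sq T x) (P.Om ∩ K) := by
    apply int_bdd_mul hmeas i1 (cg.norm.pow 2) (M := M ^ 2)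
    intro x
    change |‖gradient ψ x‖ ^ 2| ≤ _
    rw [abs_of_nonneg (by positivity)]
    exact pow_le_pow_left₀ (norm_nonneg _) (hM x) 2
  have j3 : IntegrableOn (fun x => 2 * (ψ x * ⟪tg T x, gradient ψ x⟫)) (P.Om ∩ K) := by
    apply Integrable.mono' ((j1.div_const 2).add (j2.const_mul 2))
      ((continuousOn_const.mul (cψ.mul (ct.inner cg))).aestronglyMeasurable hmeas)
    refine Eventually.of_forall fun x => ?_
    have h1 : |⟪tg T x, gradient ψ x⟫| ≤ √(sq T x) * √(gsq T x) * ‖gradient ψ x‖ :=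
      (abs_real_inner_le_norm _ _).trans
        (mul_le_mul_of_nonneg_right (norm_tg_le T x) (norm_nonneg _))
    have h2 := Real.sq_sqrt (sq_nn T x)
    have h3 := Real.sq_sqrt (gsq_nn T x)
    change |2 * (ψ x * ⟪tg T x, gradient ψ x⟫)|
      ≤ ψ x ^ 2 * gsq T x / 2 + 2 * (‖gradient ψ x‖ ^ 2 * sq T x)
    rw [abs_mul, abs_mul, abs_two]
    set a := √(sq T x)
    set b := √(gsq T x)
    set c := ‖gradient ψ x‖
    have h4 : 2 * (|ψ x| * |⟪tg T x, gradient ψ x⟫|) ≤ 2 * (|ψ x| * (a * b * c)) := by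
      gcongr
    refine h4.trans ?_
    have h5 : ψ x ^ 2 = |ψ x| ^ 2 := (sq_abs _).symm
    rw [h5, ← h2, ← h3]
    nlinarith [sq_nonneg (|ψ x| * b - 2 * (c * a))]
  -- the pointwise inequality
  have step : - ∫ x in P.Om ∩ K, 2 * (ψ x * ⟪tg T x, gradient ψ x⟫)
      ≤ ∫ x in P.Om ∩ K, ((ψ x ^ 2 * gsq T x) / 2 + 2 * (‖gradient ψ x‖ ^ 2 * sq T x)) := by
    rw [← integral_neg]
    apply setIntegral_mono j3.neg ((j1.div_const 2).add (j2.const_mul 2))
    intro x
    have h1 : |⟪tg T x, gradient ψ x⟫| ≤ √(sq T x) * √(gsq T x) * ‖gradient ψ x‖ :=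
      (abs_real_inner_le_norm _ _).trans
        (mul_le_mul_of_nonneg_right (norm_tg_le T x) (norm_nonneg _))
    have h2 := Real.sq_sqrt (sq_nn T x)
    have h3 := Real.sq_sqrt (gsq_nn T x)
    change -(2 * (ψ x * ⟪tg T x, gradient ψ x⟫))
      ≤ ψ x ^ 2 * gsq T x / 2 + 2 * (‖gradient ψ x‖ ^ 2 * sq T x)
    set a := √(sq T x)
    set b := √(gsq T x)
    set c := ‖gradient ψ x‖
    have h4 : -(2 * (ψ x * ⟪tg T x, gradient ψ x⟫)) ≤ 2 * (|ψ x| * (a * b * c)) := by
      calc -(2 * (ψ x * ⟪tg T x, gradient ψ x⟫)) ≤ |2 * (ψ x * ⟪tg T x, gradient ψ x⟫)| :=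
            neg_le_abs _
        _ = 2 * (|ψ x| * |⟪tg T x, gradient ψ x⟫|) := by rw [abs_mul, abs_mul, abs_two]
        _ ≤ _ := by gcongr
    refine h4.trans ?_
    have h5 : ψ x ^ 2 = |ψ x| ^ 2 := (sq_abs _).symm
    rw [h5, ← h2, ← h3]
    nlinarith [sq_nonneg (|ψ x| * b - 2 * (c * a))]
  have e5 : ∫ x in P.Om ∩ K, ((ψ x ^ 2 * gsq T x) / 2 + 2 * (‖gradient ψ x‖ ^ 2 * sq T x))
      = (∫ x in P.Om ∩ K, ψ x ^ 2 * gsq T x) / 2
        + 2 * ∫ x in P.Om ∩ K, ‖gradient ψ x‖ ^ 2 * sq T x := by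
    rw [integral_add (j1.div_const 2) (j2.const_mul 2), integral_div, integral_const_mul]
  rw [e5] at step
  linarith

end

end Pool.Agent.Lib_helper81.Robin
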