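import Pool.Agent.Lib_helper81.Robin.Base

/-! # Robin project, block PL -/

namespace Pool.Agent.Lib_helper81.Robin

open Pool.Agent.Lib_helper13.Robin
open MeasureTheory Set Metric Filter Topology
open scoped RealInnerProductSpace ContDiff

noncomputable section

variable {d m : ℕ} {ι : Type} [Fintype ι] {T T' : ι → E d → ℝ}

/-- **PL.** -/
theorem PP.mono {P : PD d m} {V V' : Set (E d)} (h : PP P T V) (hV : V' ⊆ V) : PP P T V' where
  sm i := (h.sm i).mono (inter_subset_inter_right _ hV)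
  int1 K hK hc := h.int1 K (hK.trans hV) hc
  int2 K hK hc := h.int2 K (hK.trans hV) hc
  eq δ hδ ψ h1 h2 h3 := h.eq δ hδ ψ h1 h2 (h3.trans hV)

/-- **PL.** -/
theorem PP.congr {P : PD d m} {V : Set (E d)} (hV : IsOpen V) (h : PP P T V)
    (hT : ∀ i, ∀ x ∈ P.Om ∩ V, T' i x = T i x) : PP P T' V where
  sm i := (h.sm i).congr (hT i)
  int1 K hK hc := (h.int1 K hK hc).congr_fun
    (fun x hx => (sq_congr hT ⟨hx.1, hK hx.2⟩).symm) (P.measurableSet_Om.inter hc.measurableSet)
  int2 K hK hc := (h.int2 K hK hc).congr_fun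
    (fun x hx => (gsq_congr (P.isOpen_Om.inter hV) hT ⟨hx.1, hK hx.2⟩).symm)
    (P.measurableSet_Om.inter hc.measurableSet)
  eq δ hδ ψ h1 h2 h3 := by
    have hU := P.isOpen_Om.inter hV
    have e1 : ∫ x in P.Om, ⟪gG δ T' x, gradient ψ x⟫ = ∫ x in P.Om, ⟪gG δ T x, gradient ψ x⟫ := by
      apply setIntegral_congr_fun P.measurableSet_Om
      intro x hx
      by_cases hxV : x ∈ V
      · simp only [gG_congr hU hT (⟨hx, hxV⟩ : x ∈ P.Om ∩ V)]
      · simp only [grad_of_notMem fun h => hxV (h3 h), inner_zero_right]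
    have e2 : ∫ x in P.Om, ψ x * eG δ T' x = ∫ x in P.Om, ψ x * eG δ T x := by
      apply setIntegral_congr_fun P.measurableSet_Om
      intro x hx
      by_cases hxV : x ∈ V
      · simp only [eG_congr hU hT (⟨hx, hxV⟩ : x ∈ P.Om ∩ V)]
      · simp only [image_eq_zero_of_notMem_tsupport fun h => hxV (h3 h), zero_mul]
    rw [e1, e2]
    exact h.eq δ hδ ψ h1 h2 h3

/-- **PL.** -/
theorem EF.mono {P : PD d m} {V V' : Set (E d)} (h : EF P T V) (_hV' : IsOpen V') (hV : V' ⊆ V) :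
    EF P T V' where
  sm i := (h.sm i).mono (inter_subset_inter_right _ hV)
  harm i x hx := h.harm i x ⟨hx.1, hV hx.2⟩
  ext q hq i h1 h2 := h.ext q (hV hq) i h1 h2

end

end Pool.Agent.Lib_helper81.Robin
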