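import Pool.Agent.Lib_helper81.Robin.CA
import Pool.Agent.Lib_helper13.Robin.W.CU
import Pool.Agent.Lib_helper13.Robin.W.TU
import Pool.Agent.Lib_helper13.Robin.W.NL

/-! # Robin project: removal of a stratum (common part of ED, FL, CO) -/

namespace Pool.Agent.Lib_helper81.Robin

open Pool.Agent.Lib_helper13.Robin
open MeasureTheory Set Metric Filter Topology
open scoped RealInnerProductSpace ContDiff

noncomputable section

variable {d m : ℕ} {P : PD d m}

/-! ### the distance to the stratum -/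

theorem rho_nn (q x : E d) : 0 ≤ P.rho q x := norm_nonneg _

theorem rho_le (q x : E d) : P.rho q x ≤ ‖x - q‖ := by
  unfold PD.rho
  exact (P.N q).norm_starProjection_apply_le _

theorem rho_cont (q : E d) : Continuous (P.rho q) := by
  unfold PD.rho; fun_prop

theorem isOpen_V0 (q : E d) (R : ℝ) : IsOpen (ball q R \ {x | P.rho q x = 0}) := by
  rw [diff_eq]
  apply isOpen_ball.inter
  have : {x | P.rho q x = 0}ᶜ = (P.rho q) ⁻¹' {0}ᶜ := rfl
  rw [this]
  exact isOpen_compl_singleton.preimage (rho_cont q)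

theorem rho_ne {q : E d} {R : ℝ} (hC : P.Con q R) (hr : 1 ≤ P.rk q) {x : E d}
    (hx : x ∈ P.Om ∩ ball q R) : P.rho q x ≠ 0 := by
  intro h0
  have h1 : (P.N q).starProjection (x - q) = 0 := norm_eq_zero.1 h0
  rw [Submodule.starProjection_apply_eq_zero_iff] at h1
  have h2 : ‖x - q‖ < R := by simpa [mem_ball, dist_eq_norm] using hx.2
  have h3 := hC.A_shift h1 h2
  rw [add_sub_cancel] at h3
  have h4 : P.A x = ∅ := (P.A_eq_empty_iff (P.Om_sub_cl hx.1)).2 hx.1
  have h5 : P.N q = ⊥ := by rw [PD.N, ← h3, h4, image_empty, Submodule.span_empty]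
  have h6 : P.rk q = 0 := by rw [PD.rk, h5]; exact finrank_bot ℝ (E d)
  omega

theorem om_V0 {q : E d} {R : ℝ} (hC : P.Con q R) (hr : 1 ≤ P.rk q) :
    P.Om ∩ (ball q R \ {x | P.rho q x = 0}) = P.Om ∩ ball q R := by
  ext x
  exact ⟨fun h => ⟨h.1, h.2.1⟩, fun h => ⟨h.1, h.2, rho_ne hC hr h⟩⟩

/-! ### cutoffs -/

theorem exists_eta {q : E d} {R : ℝ} (hR : 0 < R) {K : Set (E d)} (hK : IsCompact K)
    (hKs : K ⊆ ball q R) : ∃ η : E d → ℝ, ContDiff ℝ ∞ η ∧ HasCompactSupport η ∧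
      tsupport η ⊆ ball q R ∧ (∀ x, 0 ≤ η x ∧ η x ≤ 1) ∧ ∀ x ∈ K, η x = 1 := by
  obtain ⟨r, hr, hKr⟩ := exists_pos_lt_subset_ball hR hK.isClosed hKs
  let f : ContDiffBump q := ⟨r, (r + R) / 2, hr.1, by linarith [hr.2]⟩
  refine ⟨f, f.contDiff, f.hasCompactSupport, ?_, fun x => ⟨f.nonneg, f.le_one⟩, fun x hx => ?_⟩
  · rw [f.tsupport_eq]
    exact closedBall_subset_ball (by change (r + R) / 2 < R; linarith [hr.2])
  · exact f.one_of_mem_closedBall (ball_subset_closedBall (hKr hx))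

theorem supp_cut {q : E d} {R : ℝ} {χ η : E d → ℝ} (ht : ∃ t > 0, ∀ x, P.rho q x < t → χ x = 0)
    (hη : HasCompactSupport η) (hs : tsupport η ⊆ ball q R) :
    HasCompactSupport (fun x => χ x * η x) ∧
    tsupport (fun x => χ x * η x) ⊆ tsupport η ∧
    tsupport (fun x => χ x * η x) ⊆ ball q R \ {x | P.rho q x = 0} := by
  obtain ⟨t, ht0, ht⟩ := ht
  have h1 : tsupport (fun x => χ x * η x) ⊆ tsupport η := by
    apply closure_mono
    intro x hx
    rw [Function.mem_support] at hx ⊢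
    intro h0; exact hx (by simp only [h0, mul_zero])
  have h2 : tsupport (fun x => χ x * η x) ⊆ {x | t ≤ P.rho q x} := by
    apply closure_minimal _ (isClosed_le continuous_const (rho_cont q))
    intro x hx
    rw [Function.mem_support] at hx
    by_contra h
    exact hx (by simp only [ht x (not_le.1 h), zero_mul])
  refine ⟨HasCompactSupport.of_support_subset_isCompact hη
    ((subset_tsupport _).trans h1), h1, fun x hx => ⟨hs (h1 hx), fun h0 => ?_⟩⟩
  have := h2 hx
  rw [mem_setOf_eq] at h0 this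
  linarith

/-! ### Fatou -/

theorem fatou_int {μ : Measure (E d)} {f : E d → ℝ} {a : ℕ → E d → ℝ} {B : ℝ}
    (hf0 : ∀ x, 0 ≤ f x) (hfm : AEStronglyMeasurable f μ)
    (hi : ∀ n, Integrable (fun x => a n x * f x) μ) (h0 : ∀ n x, 0 ≤ a n x)
    (hB : ∀ n, ∫ x, a n x * f x ∂μ ≤ B)
    (hl : ∀ᵐ x ∂μ, Tendsto (fun n => a n x) atTop (𝓝 1)) : Integrable f μ := by
  refine ⟨hfm, ?_⟩
  rw [hasFiniteIntegral_iff_ofReal (Eventually.of_forall hf0)]
  have h1 : ∫⁻ x, ENNReal.ofReal (f x) ∂μ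
      = ∫⁻ x, liminf (fun n => ENNReal.ofReal (a n x * f x)) atTop ∂μ := by
    apply lintegral_congr_ae
    filter_upwards [hl] with x hx
    have h2 : Tendsto (fun n => ENNReal.ofReal (a n x * f x)) atTop (𝓝 (ENNReal.ofReal (f x))) := by
      apply ENNReal.tendsto_ofReal
      simpa using hx.mul_const (f x)
    exact h2.liminf_eq.symm
  rw [h1]
  refine (lintegral_liminf_le' fun n => (hi n).1.aemeasurable.ennreal_ofReal).trans_lt ?_
  have h3 : ∀ n, ∫⁻ x, ENNReal.ofReal (a n x * f x) ∂μ ≤ ENNReal.ofReal B := fun n => by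
    rw [← ofReal_integral_eq_lintegral_ofReal (hi n)
      (Eventually.of_forall fun x => mul_nonneg (h0 n x) (hf0 x))]
    exact ENNReal.ofReal_le_ofReal (hB n)
  refine (liminf_le_liminf (Eventually.of_forall h3)).trans_lt ?_
  rw [liminf_const]
  exact ENNReal.ofReal_lt_top

/-- a Cauchy–Schwarz substitute -/
theorem cs_tendsto {A : ℝ} (hA : 0 ≤ A) {B c : ℕ → ℝ} (hB : Tendsto B atTop (𝓝 0))
    (h : ∀ n, ∀ l : ℝ, 0 < l → |c n| ≤ l * A + B n / l) : Tendsto c atTop (𝓝 0) := by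
  rw [Metric.tendsto_atTop]
  intro ε hε
  set l : ℝ := ε / (2 * (A + 1)) with hl
  have hl0 : 0 < l := by positivity
  have h1 : l * A < ε / 2 := by
    rw [hl, div_mul_eq_mul_div, div_lt_div_iff₀ (by positivity) two_pos]
    nlinarith
  rw [Metric.tendsto_atTop] at hB
  obtain ⟨N, hN⟩ := hB (ε / 2 * l) (by positivity)
  refine ⟨N, fun n hn => ?_⟩
  have h2 := hN n hn
  rw [Real.dist_eq, sub_zero] at h2 ⊢
  have h3 : B n / l < ε / 2 := by
    rw [div_lt_iff₀ hl0]; exact (le_abs_self _).trans_lt h2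
  linarith [h n l hl0]

section rem

variable {ι : Type} [Fintype ι] {T : ι → E d → ℝ}

/-- passage to the limit in the identity -/
theorem rem_eq {q : E d} {R : ℝ} (hC : P.Con q R) (hr : 1 ≤ P.rk q)
    (h : PP P T (ball q R \ {x | P.rho q x = 0})) {χ : ℕ → E d → ℝ}
    (hχ : ∀ n, ContDiff ℝ ∞ (χ n)) (h01 : ∀ n x, 0 ≤ χ n x ∧ χ n x ≤ 1)
    (hz : ∀ n, ∃ t > 0, ∀ x, P.rho q x < t → χ n x = 0)
    (hlim : ∀ x, P.rho q x ≠ 0 → Tendsto (fun n => χ n x) atTop (𝓝 1))
    {δ : ℝ} (hδ : 0 < δ) {ψ : E d → ℝ} (hψ : ContDiff ℝ 1 ψ) (hc : HasCompactSupport ψ)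
    (hs : tsupport ψ ⊆ ball q R)
    (hg : IntegrableOn (fun x => √(gsq T x)) (P.Om ∩ tsupport ψ))
    (he : IntegrableOn (eG δ T) (P.Om ∩ tsupport ψ))
    (hi : ∀ n, IntegrableOn (fun x => ψ x * ⟪gG δ T x, gradient (χ n) x⟫) (P.Om ∩ tsupport ψ))
    (hflux : Tendsto (fun n => ∫ x in P.Om ∩ tsupport ψ,
      ψ x * ⟪gG δ T x, gradient (χ n) x⟫) atTop (𝓝 0)) :
    ∫ x in P.Om, ⟪gG δ T x, gradient ψ x⟫ = - ∫ x in P.Om, ψ x * eG δ T x := by
  set K := tsupport ψ with hK
  have hKc : IsCompact K := hc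
  have hmeas : MeasurableSet (P.Om ∩ K) := P.measurableSet_Om.inter hKc.measurableSet
  have hsub : P.Om ∩ K ⊆ P.Om ∩ (ball q R \ {x | P.rho q x = 0}) := by
    rw [om_V0 hC hr]; exact inter_subset_inter_right _ hs
  have hV0 := isOpen_V0 (P := P) q R
  obtain ⟨M, hM0, hM⟩ := grad_bdd hψ hc
  obtain ⟨M', hM0', hM'⟩ := fun_bdd hψ.continuous hc
  have cg : ContinuousOn (gradient ψ) (P.Om ∩ K) := (cont_grad' hψ).continuousOn
  have cψ : ContinuousOn ψ (P.Om ∩ K) := hψ.continuous.continuousOn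
  have cgG := (sm_gG hδ hV0 h.sm).mono hsub
  have ceG := (sm_eG hδ hV0 h.sm).mono hsub
  have cχ : ∀ n, ContinuousOn (χ n) (P.Om ∩ K) := fun n => (hχ n).continuous.continuousOn
  have hae : ∀ᵐ x ∂(volume.restrict (P.Om ∩ K)), Tendsto (fun n => χ n x) atTop (𝓝 1) := by
    filter_upwards [ae_restrict_mem hmeas] with x hx
    exact hlim x (rho_ne hC hr ⟨hx.1, hs hx.2⟩)
  have e1 : ∫ x in P.Om, ⟪gG δ T x, gradient ψ x⟫ = ∫ x in P.Om ∩ K, ⟪gG δ T x, gradient ψ x⟫ :=
    setInt_supp _ fun x hx => by rw [grad_of_notMem hx, inner_zero_right]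
  have e2 : ∫ x in P.Om, ψ x * eG δ T x = ∫ x in P.Om ∩ K, ψ x * eG δ T x :=
    setInt_supp _ fun x hx => by rw [image_eq_zero_of_notMem_tsupport hx, zero_mul]
  rw [e1, e2]
  have j1 : ∀ n, IntegrableOn (fun x => χ n x * ⟪gG δ T x, gradient ψ x⟫) (P.Om ∩ K) := by
    intro n
    apply Integrable.mono' (hg.mul_const M) (((cχ n).mul (cgG.inner cg)).aestronglyMeasurable hmeas)
    refine Eventually.of_forall fun x => ?_
    change ‖χ n x * ⟪gG δ T x, gradient ψ x⟫‖ ≤ _
    rw [norm_mul, Real.norm_of_nonneg (h01 n x).1]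
    calc χ n x * ‖⟪gG δ T x, gradient ψ x⟫‖ ≤ 1 * (√(gsq T x) * M) :=
          mul_le_mul (h01 n x).2 ((norm_inner_le_norm _ _).trans
            (mul_le_mul (norm_gG_le hδ T x) (hM x) (norm_nonneg _) (Real.sqrt_nonneg _)))
            (norm_nonneg _) zero_le_one
      _ = _ := one_mul _
  have lim1 : Tendsto (fun n => ∫ x in P.Om ∩ K, χ n x * ⟪gG δ T x, gradient ψ x⟫) atTop
      (𝓝 (∫ x in P.Om ∩ K, ⟪gG δ T x, gradient ψ x⟫)) := by
    apply tendsto_integral_of_dominated_convergence (bound := fun x => √(gsq T x) * M)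
    · exact fun n => (j1 n).1
    · exact hg.mul_const M
    · intro n
      refine Eventually.of_forall fun x => ?_
      rw [norm_mul, Real.norm_of_nonneg (h01 n x).1]
      calc χ n x * ‖⟪gG δ T x, gradient ψ x⟫‖ ≤ 1 * (√(gsq T x) * M) :=
            mul_le_mul (h01 n x).2 ((norm_inner_le_norm _ _).trans
              (mul_le_mul (norm_gG_le hδ T x) (hM x) (norm_nonneg _) (Real.sqrt_nonneg _)))
              (norm_nonneg _) zero_le_one
        _ = _ := one_mul _
    · filter_upwards [hae] with x hx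
      simpa using hx.mul_const ⟪gG δ T x, gradient ψ x⟫
  have lim2 : Tendsto (fun n => ∫ x in P.Om ∩ K, χ n x * (ψ x * eG δ T x)) atTop
      (𝓝 (∫ x in P.Om ∩ K, ψ x * eG δ T x)) := by
    apply tendsto_integral_of_dominated_convergence (bound := fun x => M' * eG δ T x)
    · exact fun n => ((cχ n).mul (cψ.mul ceG)).aestronglyMeasurable hmeas
    · exact he.const_mul M'
    · intro n
      refine Eventually.of_forall fun x => ?_
      rw [norm_mul, norm_mul, Real.norm_of_nonneg (h01 n x).1,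
        Real.norm_of_nonneg (eG_nn hδ T x), Real.norm_eq_abs]
      calc χ n x * (|ψ x| * eG δ T x) ≤ 1 * (M' * eG δ T x) :=
            mul_le_mul (h01 n x).2 (mul_le_mul_of_nonneg_right (hM' x) (eG_nn hδ T x))
              (mul_nonneg (abs_nonneg _) (eG_nn hδ T x)) zero_le_one
        _ = _ := one_mul _
    · filter_upwards [hae] with x hx
      simpa using hx.mul_const (ψ x * eG δ T x)
  have key : ∀ n, (∫ x in P.Om ∩ K, χ n x * ⟪gG δ T x, gradient ψ x⟫)
      + (∫ x in P.Om ∩ K, ψ x * ⟪gG δ T x, gradient (χ n) x⟫)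
      = - ∫ x in P.Om ∩ K, χ n x * (ψ x * eG δ T x) := by
    intro n
    obtain ⟨s1, s2, s3⟩ := supp_cut (hz n) hc hs
    have h1 := h.eq δ hδ (fun x => χ n x * ψ x) (((hχ n).of_le (by exact_mod_cast le_top)).mul hψ)
      s1 s3
    rw [← integral_add (j1 n) (hi n)]
    have e3 : ∫ x in P.Om, ⟪gG δ T x, gradient (fun x => χ n x * ψ x) x⟫
        = ∫ x in P.Om ∩ K, (χ n x * ⟪gG δ T x, gradient ψ x⟫
          + ψ x * ⟪gG δ T x, gradient (χ n) x⟫) := by
      rw [setInt_supp (K := K) _ fun x hx => by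
        rw [grad_of_notMem fun h => hx (s2 h), inner_zero_right]]
      apply setIntegral_congr_fun hmeas
      intro x _
      simp only []
      rw [grad_mul ((hχ n).differentiable (by simp) x) (hψ.differentiable one_ne_zero x),
        inner_add_right, real_inner_smul_right, real_inner_smul_right]
    have e4 : ∫ x in P.Om, χ n x * ψ x * eG δ T x
        = ∫ x in P.Om ∩ K, χ n x * (ψ x * eG δ T x) := by
      rw [setInt_supp (K := K) _ fun x hx => by
        rw [image_eq_zero_of_notMem_tsupport hx, mul_zero, zero_mul]]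
      simp only [mul_assoc]
    rw [← e3, h1, e4]
  have lim3 := lim1.add hflux
  rw [add_zero] at lim3
  exact tendsto_nhds_unique lim3 (lim2.neg.congr fun n => (key n).symm)

end rem

end

end Pool.Agent.Lib_helper81.Robin
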