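import Pool.Agent.Lib_helper13.Robin.W.CA
import Pool.Agent.Lib_helper13.Robin.W.CU
import Pool.Agent.Lib_helper13.Robin.W.PL
import Pool.Agent.Lib_helper81.Robin.Rem

/-! # Robin project, block ED -/

namespace Pool.Agent.Lib_helper81.Robin

open Pool.Agent.Lib_helper13.Robin
open MeasureTheory Set Metric Filter Topology
open scoped RealInnerProductSpace ContDiff

noncomputable section

variable {d m : ℕ} {P : PD d m} {ι : Type} [Fintype ι] {T : ι → E d → ℝ}

theorem fin_OmK (K : Set (E d)) : IsFiniteMeasure (volume.restrict (P.Om ∩ K)) :=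
  ⟨by rw [Measure.restrict_apply_univ]; exact (measure_mono inter_subset_left).trans_lt
        P.volume_lt_top⟩

theorem int_cont_ball {f : E d → ℝ} (hf : Continuous f) (q : E d) (R : ℝ) :
    IntegrableOn f (ball q R) :=
  (hf.continuousOn.integrableOn_compact (isCompact_closedBall q R)).mono_set ball_subset_closedBall

/-- integrability of `(χη)² |∇T|²` -/
theorem int_cut {q : E d} {R : ℝ}
    (h : PP P T (ball q R \ {x | P.rho q x = 0})) {χ η : E d → ℝ}
    (hχ : ContDiff ℝ ∞ χ) (h01 : ∀ x, 0 ≤ χ x ∧ χ x ≤ 1)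
    (hz : ∃ t > 0, ∀ x, P.rho q x < t → χ x = 0)
    (hη : ContDiff ℝ ∞ η) (hc : HasCompactSupport η)
    (hs : tsupport η ⊆ ball q R) (hη1 : ∀ x, 0 ≤ η x ∧ η x ≤ 1) :
    IntegrableOn (fun x => χ x ^ 2 * (η x ^ 2 * gsq T x)) (P.Om ∩ tsupport η) := by
  obtain ⟨s1, s2, s3⟩ := supp_cut hz hc hs
  set K := tsupport (fun x => χ x * η x) with hK
  have hmeas : MeasurableSet (P.Om ∩ K) := P.measurableSet_Om.inter (isClosed_tsupport _).measurableSet
  have h1 : IntegrableOn (fun x => (χ x ^ 2 * η x ^ 2) * gsq T x) (P.Om ∩ K) := by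
    apply int_bdd_mul hmeas (h.int2 K s3 s1)
      ((hχ.continuous.pow 2).mul (hη.continuous.pow 2)).continuousOn (M := 1)
    intro x
    change |χ x ^ 2 * η x ^ 2| ≤ 1
    rw [abs_of_nonneg (by positivity)]
    exact mul_le_one₀ (pow_le_one₀ (h01 x).1 (h01 x).2) (by positivity)
      (pow_le_one₀ (hη1 x).1 (hη1 x).2)
  have h2 : IntegrableOn (fun x => χ x ^ 2 * (η x ^ 2 * gsq T x)) (P.Om ∩ K) := by
    simpa only [mul_assoc] using h1
  apply IntegrableOn.of_forall_sdiff_eq_zero h2
    (P.measurableSet_Om.inter (isClosed_tsupport _).measurableSet)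
  intro x hx
  have h3 : χ x * η x = 0 := by
    by_contra h0
    exact hx.2 ⟨hx.1.1, subset_tsupport _ h0⟩
  have h4 : χ x ^ 2 * (η x ^ 2 * gsq T x) = (χ x * η x) ^ 2 * gsq T x := by ring
  rw [h4, h3]; ring

/-- Fatou step: a uniform bound on `∫ (χ_n η)² |∇T|²` gives integrability of `|∇T|²` -/
theorem int2_of_bound {q : E d} {R : ℝ} (hC : P.Con q R) (hr : 1 ≤ P.rk q)
    (h : PP P T (ball q R \ {x | P.rho q x = 0})) {χ : ℕ → E d → ℝ} {η : E d → ℝ}
    (hχ : ∀ n, ContDiff ℝ ∞ (χ n)) (h01 : ∀ n x, 0 ≤ χ n x ∧ χ n x ≤ 1)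
    (hz : ∀ n, ∃ t > 0, ∀ x, P.rho q x < t → χ n x = 0)
    (hlim : ∀ x, P.rho q x ≠ 0 → Tendsto (fun n => χ n x) atTop (𝓝 1))
    (hη : ContDiff ℝ ∞ η) (hc : HasCompactSupport η)
    (hs : tsupport η ⊆ ball q R) (hη1 : ∀ x, 0 ≤ η x ∧ η x ≤ 1) {K : Set (E d)}
    (hK : IsCompact K) (hηK : ∀ x ∈ K, η x = 1) {B : ℝ}
    (hB : ∀ n, ∫ x in P.Om, (χ n x * η x) ^ 2 * gsq T x ≤ B) :
    IntegrableOn (gsq T) (P.Om ∩ K) := by
  have hV0 := isOpen_V0 (P := P) q R
  have hmeas : MeasurableSet (P.Om ∩ tsupport η) :=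
    P.measurableSet_Om.inter (isClosed_tsupport _).measurableSet
  have hsub : P.Om ∩ tsupport η ⊆ P.Om ∩ (ball q R \ {x | P.rho q x = 0}) := by
    rw [om_V0 hC hr]; exact inter_subset_inter_right _ hs
  have h1 : IntegrableOn (fun x => η x ^ 2 * gsq T x) (P.Om ∩ tsupport η) := by
    apply fatou_int (a := fun n x => χ n x ^ 2) (B := B)
    · exact fun x => mul_nonneg (by positivity) (gsq_nn T x)
    · exact ((hη.continuous.pow 2).continuousOn.mul
        ((sm_gsq hV0 h.sm).mono hsub)).aestronglyMeasurable hmeas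
    · exact fun n => int_cut h (hχ n) (h01 n) (hz n) hη hc hs hη1
    · exact fun n x => by positivity
    · intro n
      refine le_trans (le_of_eq ?_) (hB n)
      rw [setInt_supp (K := tsupport η) _ fun x hx => by
        rw [image_eq_zero_of_notMem_tsupport hx]; ring]
      apply setIntegral_congr_fun hmeas
      intro x _; simp only []; ring
    · filter_upwards [ae_restrict_mem hmeas] with x hx
      simpa using (hlim x (rho_ne hC hr ⟨hx.1, hs hx.2⟩)).pow 2
  have hKs : K ⊆ tsupport η := fun x hx => subset_tsupport _ (by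
    rw [Function.mem_support, hηK x hx]; exact one_ne_zero)
  refine (h1.mono_set (inter_subset_inter_right _ hKs)).congr_fun (fun x hx => ?_)
    (P.measurableSet_Om.inter hK.measurableSet)
  simp only [hηK x hx.2, one_pow, one_mul]

theorem sqrt_gsq_int {S : Set (E d)} (hS : MeasurableSet S) (hf : volume S < ⊤)
    (hm : ContinuousOn (gsq T) S) (h : IntegrableOn (gsq T) S) :
    IntegrableOn (fun x => √(gsq T x)) S := by
  have : IsFiniteMeasure (volume.restrict S) := ⟨by rwa [Measure.restrict_apply_univ]⟩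
  apply Integrable.mono' ((h.add (integrable_const 1)).div_const 2)
    (hm.sqrt.aestronglyMeasurable hS)
  refine Eventually.of_forall fun x => ?_
  rw [Real.norm_of_nonneg (Real.sqrt_nonneg _)]
  change √(gsq T x) ≤ (gsq T x + 1) / 2
  nlinarith [Real.sq_sqrt (gsq_nn T x), sq_nonneg (√(gsq T x) - 1)]

/-- **ED.** bounded fields: removal of codimension-≥2 strata -/
theorem pp_edge {q : E d} {R : ℝ} (hC : P.Con q R) (hr : 2 ≤ P.rk q)
    (h : PP P T (ball q R \ {x | P.rho q x = 0}))
    (hb : ∃ C, ∀ x ∈ P.Om ∩ ball q R, sq T x ≤ C) : PP P T (ball q R) := by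
  obtain ⟨C, hb⟩ : ∃ C, 0 ≤ C ∧ ∀ x ∈ P.Om ∩ ball q R, sq T x ≤ C := by
    obtain ⟨C, hb⟩ := hb
    exact ⟨max C 0, le_max_right _ _, fun x hx => (hb x hx).trans (le_max_left _ _)⟩
  obtain ⟨hC0, hb⟩ := hb
  have hr1 : 1 ≤ P.rk q := by omega
  have hV0 := isOpen_V0 (P := P) q R
  obtain ⟨χ, hχ', hlim, hint⟩ := logcut P hr R
  have hχ : ∀ n, ContDiff ℝ ∞ (χ n) := fun n => (hχ' n).1
  have h01 : ∀ n x, 0 ≤ χ n x ∧ χ n x ≤ 1 := fun n => (hχ' n).2.1
  have hz : ∀ n, ∃ t > 0, ∀ x, P.rho q x < t → χ n x = 0 := fun n => (hχ' n).2.2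
  have cgχ : ∀ n, Continuous (gradient (χ n)) := fun n =>
    cont_grad' ((hχ n).of_le (by exact_mod_cast le_top))
  set b : ℕ → ℝ := fun n => ∫ x in ball q R, ‖gradient (χ n) x‖ ^ 2 with hbdef
  have hint' : Tendsto b atTop (𝓝 0) := hint
  have ib : ∀ n, IntegrableOn (fun x => ‖gradient (χ n) x‖ ^ 2) (ball q R) := fun n =>
    int_cont_ball ((cgχ n).norm.pow 2) q R
  obtain ⟨B, hB⟩ := hint'.bddAbove_range
  have hB' : ∀ n, b n ≤ B := fun n => hB ⟨n, rfl⟩
  have hsm : ∀ i, ContDiffOn ℝ ∞ (T i) (P.Om ∩ ball q R) := fun i => by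
    rw [← om_V0 hC hr1]; exact h.sm i
  have hint2 : ∀ K ⊆ ball q R, IsCompact K → IntegrableOn (gsq T) (P.Om ∩ K) := by
    intro K hKs hK
    obtain ⟨η, hη, hc, hs, hη1, hηK⟩ := exists_eta hC.pos hK hKs
    have hη' : ContDiff ℝ 1 η := hη.of_le (by exact_mod_cast le_top)
    obtain ⟨M, hM0, hM⟩ := grad_bdd hη' hc
    have hmeas : MeasurableSet (P.Om ∩ tsupport η) :=
      P.measurableSet_Om.inter (isClosed_tsupport _).measurableSet
    have := fin_OmK (P := P) (tsupport η)
    apply int2_of_bound hC hr1 h hχ h01 hz hlim hη hc hs hη1 hK hηK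
      (B := 4 * (C * (2 * B + 2 * M ^ 2 * volume.real (P.Om ∩ tsupport η))))
    intro n
    obtain ⟨s1, s2, s3⟩ := supp_cut (hz n) hc hs
    have hχη : ContDiff ℝ 1 fun x => χ n x * η x :=
      ((hχ n).of_le (by exact_mod_cast le_top)).mul hη'
    refine (caccioppoli hV0 h hχη s1 s3).trans ?_
    apply mul_le_mul_of_nonneg_left _ (by norm_num)
    rw [setInt_supp (K := tsupport η) _ fun x hx => by
      rw [grad_of_notMem fun h => hx (s2 h)]; simp]
    have ig : IntegrableOn (fun x => ‖gradient (χ n) x‖ ^ 2) (P.Om ∩ tsupport η) :=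
      (ib n).mono_set (inter_subset_right.trans hs)
    calc ∫ x in P.Om ∩ tsupport η, ‖gradient (fun x => χ n x * η x) x‖ ^ 2 * sq T x
        ≤ ∫ x in P.Om ∩ tsupport η, C * (2 * ‖gradient (χ n) x‖ ^ 2 + 2 * M ^ 2) := by
          apply integral_mono_of_nonneg
          · exact Eventually.of_forall fun x => mul_nonneg (by positivity) (sq_nn T x)
          · exact ((ig.const_mul 2).add (integrable_const _)).const_mul C
          · filter_upwards [ae_restrict_mem hmeas] with x hx
            have h1 : ‖gradient (fun x => χ n x * η x) x‖ ≤ ‖gradient (χ n) x‖ + M := by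
              rw [grad_mul ((hχ n).differentiable (by simp) x)
                (hη.differentiable (by simp) x)]
              refine (norm_add_le _ _).trans ?_
              rw [norm_smul, norm_smul, Real.norm_of_nonneg (h01 n x).1,
                Real.norm_of_nonneg (hη1 x).1]
              have h2 : χ n x * ‖gradient η x‖ ≤ 1 * M :=
                mul_le_mul (h01 n x).2 (hM x) (norm_nonneg _) zero_le_one
              have h3 : η x * ‖gradient (χ n) x‖ ≤ 1 * ‖gradient (χ n) x‖ :=
                mul_le_mul_of_nonneg_right (hη1 x).2 (norm_nonneg _)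
              linarith
            have h2 : ‖gradient (fun x => χ n x * η x) x‖ ^ 2
                ≤ 2 * ‖gradient (χ n) x‖ ^ 2 + 2 * M ^ 2 :=
              (pow_le_pow_left₀ (norm_nonneg _) h1 2).trans (by
                nlinarith [sq_nonneg (‖gradient (χ n) x‖ - M)])
            calc _ ≤ (2 * ‖gradient (χ n) x‖ ^ 2 + 2 * M ^ 2) * C :=
                  mul_le_mul h2 (hb x ⟨hx.1, hs hx.2⟩) (sq_nn T x) (by positivity)
              _ = _ := by ring
      _ = C * (2 * (∫ x in P.Om ∩ tsupport η, ‖gradient (χ n) x‖ ^ 2)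
            + 2 * M ^ 2 * volume.real (P.Om ∩ tsupport η)) := by
          rw [integral_const_mul, integral_add (ig.const_mul 2) (integrable_const _),
            integral_const_mul, setIntegral_const, smul_eq_mul]
          ring
      _ ≤ C * (2 * B + 2 * M ^ 2 * volume.real (P.Om ∩ tsupport η)) := by
          apply mul_le_mul_of_nonneg_left _ hC0
          have h1 : ∫ x in P.Om ∩ tsupport η, ‖gradient (χ n) x‖ ^ 2 ≤ b n :=
            setIntegral_mono_set (ib n) (Eventually.of_forall fun x => by positivity)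
              (inter_subset_right.trans hs).eventuallyLE
          linarith [hB' n]
  refine ⟨hsm, ?_, hint2, ?_⟩
  · intro K hKs hK
    have := fin_OmK (P := P) K
    have hmeas : MeasurableSet (P.Om ∩ K) := P.measurableSet_Om.inter hK.measurableSet
    apply Integrable.mono' (integrable_const C)
      (((sm_sq isOpen_ball hsm).mono (inter_subset_inter_right _ hKs)).aestronglyMeasurable hmeas)
    filter_upwards [ae_restrict_mem hmeas] with x hx
    rw [Real.norm_of_nonneg (sq_nn T x)]
    exact hb x ⟨hx.1, hKs hx.2⟩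
  · intro δ hδ ψ hψ hc hs
    set K := tsupport ψ with hKd
    have hKc : IsCompact K := hc
    have hmeas : MeasurableSet (P.Om ∩ K) := P.measurableSet_Om.inter hKc.measurableSet
    have hsub : P.Om ∩ K ⊆ P.Om ∩ ball q R := inter_subset_inter_right _ hs
    have := fin_OmK (P := P) K
    obtain ⟨M', hM0', hM'⟩ := fun_bdd hψ.continuous hc
    have i2 := hint2 K hs hKc
    have cG := (sm_gG hδ isOpen_ball hsm).mono hsub
    have hvol : volume (P.Om ∩ K) < ⊤ := (measure_mono inter_subset_left).trans_lt P.volume_lt_top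
    have ig : ∀ n, IntegrableOn (fun x => ‖gradient (χ n) x‖ ^ 2) (P.Om ∩ K) := fun n =>
      (ib n).mono_set (inter_subset_right.trans hs)
    have pt : ∀ n, ∀ l : ℝ, 0 < l → ∀ x, ‖ψ x * ⟪gG δ T x, gradient (χ n) x⟫‖
        ≤ l * (M' / 2 * gsq T x) + (M' / 2 * ‖gradient (χ n) x‖ ^ 2) / l := by
      intro n l hl x
      have h1 : |⟪gG δ T x, gradient (χ n) x⟫| ≤ √(gsq T x) * ‖gradient (χ n) x‖ :=
        (abs_real_inner_le_norm _ _).trans
          (mul_le_mul_of_nonneg_right (norm_gG_le hδ T x) (norm_nonneg _))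
      have h2 := Real.sq_sqrt (gsq_nn T x)
      rw [Real.norm_eq_abs, abs_mul]
      set a := √(gsq T x)
      set c := ‖gradient (χ n) x‖
      have ha : 0 ≤ a := Real.sqrt_nonneg _
      have hcc : 0 ≤ c := norm_nonneg _
      have h3 : a * c ≤ (l * a ^ 2 + c ^ 2 / l) / 2 := by
        have h4 : c ^ 2 / l = l * (c / l) ^ 2 := by field_simp
        have h5 : a * c = l * (a * (c / l)) := by field_simp
        rw [h4, h5]
        nlinarith [mul_nonneg hl.le (sq_nonneg (a - c / l))]
      calc |ψ x| * |⟪gG δ T x, gradient (χ n) x⟫| ≤ M' * (a * c) :=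
            mul_le_mul (hM' x) h1 (abs_nonneg _) hM0'
        _ ≤ M' * ((l * a ^ 2 + c ^ 2 / l) / 2) := mul_le_mul_of_nonneg_left h3 hM0'
        _ = _ := by rw [← h2]; ring
    have hi : ∀ n, IntegrableOn (fun x => ψ x * ⟪gG δ T x, gradient (χ n) x⟫) (P.Om ∩ K) := by
      intro n
      apply Integrable.mono' (((i2.const_mul (M' / 2)).const_mul 1).add
        (((ig n).const_mul (M' / 2)).div_const 1))
        ((hψ.continuous.continuousOn.mul
          (cG.inner (cgχ n).continuousOn)).aestronglyMeasurable hmeas)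
      exact Eventually.of_forall fun x => pt n 1 one_pos x
    apply rem_eq hC hr1 h hχ h01 hz hlim hδ hψ hc hs
    · exact sqrt_gsq_int hmeas hvol ((sm_gsq isOpen_ball hsm).mono hsub) i2
    · apply Integrable.mono' (i2.div_const δ)
        (((sm_eG hδ isOpen_ball hsm).mono hsub).aestronglyMeasurable hmeas)
      refine Eventually.of_forall fun x => ?_
      rw [Real.norm_of_nonneg (eG_nn hδ T x)]
      exact eG_le hδ T x
    · exact hi
    · have hA : 0 ≤ M' / 2 * ∫ x in P.Om ∩ K, gsq T x :=
        mul_nonneg (by positivity) (integral_nonneg fun x => gsq_nn T x)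
      have hBt : Tendsto (fun n => M' / 2 * b n) atTop (𝓝 0) := by
        simpa using hint'.const_mul (M' / 2)
      refine cs_tendsto hA hBt ?_
      · intro n l hl
        calc |∫ x in P.Om ∩ K, ψ x * ⟪gG δ T x, gradient (χ n) x⟫|
            ≤ ∫ x in P.Om ∩ K, ‖ψ x * ⟪gG δ T x, gradient (χ n) x⟫‖ := by
              rw [← Real.norm_eq_abs]
              exact norm_integral_le_integral_norm _
          _ ≤ ∫ x in P.Om ∩ K, (l * (M' / 2 * gsq T x)
                + (M' / 2 * ‖gradient (χ n) x‖ ^ 2) / l) := by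
              apply integral_mono_of_nonneg (Eventually.of_forall fun x => norm_nonneg _)
              · exact ((i2.const_mul (M' / 2)).const_mul l).add
                  (((ig n).const_mul (M' / 2)).div_const l)
              · exact Eventually.of_forall fun x => pt n l hl x
          _ = l * (M' / 2 * ∫ x in P.Om ∩ K, gsq T x)
                + (M' / 2 * ∫ x in P.Om ∩ K, ‖gradient (χ n) x‖ ^ 2) / l := by
              rw [integral_add ((i2.const_mul (M' / 2)).const_mul l)
                (((ig n).const_mul (M' / 2)).div_const l), integral_const_mul, integral_const_mul,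
                integral_div, integral_const_mul]
          _ ≤ _ := by
              have h1 : ∫ x in P.Om ∩ K, ‖gradient (χ n) x‖ ^ 2 ≤ b n :=
                setIntegral_mono_set (ib n) (Eventually.of_forall fun x => by positivity)
                  (inter_subset_right.trans hs).eventuallyLE
              gcongr

end

end Pool.Agent.Lib_helper81.Robin
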