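import Pool.Agent.Lib_helper13.Robin.W.CA
import Pool.Agent.Lib_helper13.Robin.W.CU
import Pool.Agent.Lib_helper13.Robin.W.TU
import Pool.Agent.Lib_helper13.Robin.W.PL
import Pool.Agent.Lib_helper81.Robin.ED

/-! # Robin project, block FL -/

namespace Pool.Agent.Lib_helper81.Robin

open Pool.Agent.Lib_helper13.Robin
open MeasureTheory Set Metric Filter Topology
open scoped RealInnerProductSpace ContDiff

noncomputable section

variable {d m : ℕ} {P : PD d m} {ι : Type} [Fintype ι] {T : ι → E d → ℝ}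

/-! ### the function `√ρ` -/

theorem rho_lip (q : E d) : LipschitzWith 1 (P.rho q) := by
  apply LipschitzWith.of_dist_le_mul
  intro x y
  rw [NNReal.coe_one, one_mul, Real.dist_eq, dist_eq_norm]
  unfold PD.rho
  refine (abs_norm_sub_norm_le _ _).trans ?_
  rw [← map_sub, sub_sub_sub_cancel_right]
  exact (P.N q).norm_starProjection_apply_le _

theorem rho_smooth {q x : E d} (hx : P.rho q x ≠ 0) : ContDiffAt ℝ ∞ (P.rho q) x := by
  unfold PD.rho at hx ⊢
  have h1 : ContDiffAt ℝ ∞ (fun x => (P.N q).starProjection (x - q)) x := by fun_prop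
  exact h1.norm ℝ (norm_ne_zero_iff.1 hx)

theorem sqrt_rho_smooth {q x : E d} (hx : P.rho q x ≠ 0) :
    ContDiffAt ℝ ∞ (fun x => √(P.rho q x)) x := (rho_smooth hx).sqrt hx

theorem grad_sqrt_rho {q x : E d} (hx : P.rho q x ≠ 0) :
    ‖gradient (fun x => √(P.rho q x)) x‖ ≤ 1 / (2 * √(P.rho q x)) := by
  have h1 : DifferentiableAt ℝ (P.rho q) x := (rho_smooth hx).differentiableAt (by simp)
  have h2 := (h1.hasFDerivAt.sqrt hx).fderiv
  rw [norm_grad, h2, norm_smul, Real.norm_of_nonneg (by positivity)]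
  calc 1 / (2 * √(P.rho q x)) * ‖fderiv ℝ (P.rho q) x‖ ≤ 1 / (2 * √(P.rho q x)) * 1 := by
        apply mul_le_mul_of_nonneg_left _ (by positivity)
        simpa using norm_fderiv_le_of_lipschitz ℝ (rho_lip (P := P) q) (x₀ := x)
    _ = _ := mul_one _

/-! ### cutoffs -/

structure Cut (P : PD d m) (q : E d) (C t : ℝ) (χ : E d → ℝ) : Prop where
  pos : 0 < t
  sm : ContDiff ℝ ∞ χ
  rng : ∀ x, 0 ≤ χ x ∧ χ x ≤ 1
  zero : ∀ x, P.rho q x ≤ t → χ x = 0
  one : ∀ x, 2 * t ≤ P.rho q x → χ x = 1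
  grad : ∀ x, ‖gradient χ x‖ ≤ C / t

theorem grad_eq_zero_of_const {χ : E d → ℝ} {x : E d} {c : ℝ} (h : χ =ᶠ[𝓝 x] fun _ => c) :
    gradient χ x = 0 := by
  rw [grad_congr h, grad_def, fderiv_fun_const, Pi.zero_apply, map_zero]

theorem Cut.gz {q : E d} {C t : ℝ} {χ : E d → ℝ} (h : Cut P q C t χ) {x : E d}
    (hx : P.rho q x < t ∨ 2 * t < P.rho q x) : gradient χ x = 0 := by
  rcases hx with hx | hx
  · apply grad_eq_zero_of_const (c := 0)
    filter_upwards [(isOpen_lt (rho_cont q) continuous_const).mem_nhds hx] with y hy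
    exact h.zero y (le_of_lt hy)
  · apply grad_eq_zero_of_const (c := 1)
    filter_upwards [(isOpen_lt continuous_const (rho_cont q)).mem_nhds hx] with y hy
    exact h.one y (le_of_lt hy)

theorem Cut.grad_le {q : E d} {C t : ℝ} {χ : E d → ℝ} (hC : 0 < C) (h : Cut P q C t χ) {x : E d}
    (hx : P.rho q x ≠ 0) : ‖gradient χ x‖ ≤ 2 * C / P.rho q x := by
  have h0 : 0 < P.rho q x := lt_of_le_of_ne (rho_nn q x) (Ne.symm hx)
  by_cases h1 : 2 * t < P.rho q x
  · rw [h.gz (Or.inr h1), norm_zero]; positivity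
  · refine (h.grad x).trans ?_
    rw [div_le_div_iff₀ h.pos h0]
    nlinarith [not_lt.1 h1]

theorem Cut.hz {q : E d} {C t : ℝ} {χ : E d → ℝ} (h : Cut P q C t χ) :
    ∃ t > 0, ∀ x, P.rho q x < t → χ x = 0 := ⟨t, h.pos, fun x hx => h.zero x hx.le⟩

/-- `√ρ χ η` is `C¹` -/
theorem Cut.sqrt_c1 {q : E d} {C t : ℝ} {χ : E d → ℝ} (h : Cut P q C t χ) {η : E d → ℝ}
    (hη : ContDiff ℝ 1 η) : ContDiff ℝ 1 fun x => √(P.rho q x) * (χ x * η x) := by
  rw [contDiff_iff_contDiffAt]
  intro x
  by_cases hx : P.rho q x = 0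
  · have h1 : (fun x => √(P.rho q x) * (χ x * η x)) =ᶠ[𝓝 x] fun _ => 0 := by
      filter_upwards [(isOpen_lt (rho_cont (P := P) q) continuous_const).mem_nhds
        (show P.rho q x < t by rw [hx]; exact h.pos)] with y hy
      rw [h.zero y (le_of_lt hy)]; ring
    exact contDiffAt_const.congr_of_eventuallyEq h1
  · exact ((sqrt_rho_smooth hx).of_le (by exact_mod_cast le_top)).mul
      (((h.sm.of_le (by exact_mod_cast le_top)).mul hη).contDiffAt)

theorem exists_cuts (P : PD d m) (q : E d) : ∃ C > 0, ∃ χ : ℕ → E d → ℝ,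
    (∀ n : ℕ, Cut P q C (1 / ((n : ℝ) + 1)) (χ n)) ∧
    ∀ x, P.rho q x ≠ 0 → Tendsto (fun n => χ n x) atTop (𝓝 1) := by
  obtain ⟨C, hC, h⟩ := cutoff P q
  have h' : ∀ n : ℕ, ∃ χ, Cut P q C (1 / ((n : ℝ) + 1)) χ := by
    intro n
    have hn : (0 : ℝ) < 1 / ((n : ℝ) + 1) := by positivity
    obtain ⟨χ, h1, h2, h3, h4, h5⟩ := h _ hn
    exact ⟨χ, hn, h1, h2, h3, h4, h5⟩
  choose χ hχ using h'
  refine ⟨C, hC, χ, hχ, fun x hx => ?_⟩
  have h0 : 0 < P.rho q x := lt_of_le_of_ne (rho_nn q x) (Ne.symm hx)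
  apply tendsto_const_nhds.congr'
  have h1 : ∀ᶠ n : ℕ in atTop, 1 / ((n : ℝ) + 1) < P.rho q x / 2 :=
    (tendsto_order.1 tendsto_one_div_add_atTop_nhds_zero_nat).2 _ (by positivity)
  filter_upwards [h1] with n hn
  exact ((hχ n).one x (by linarith)).symm

/-! ### integrability of `ρ |∇T|²` -/

theorem rho_pos' {q : E d} {R : ℝ} (hC : P.Con q R) (hr : 1 ≤ P.rk q) {x : E d}
    (hx : x ∈ P.Om ∩ ball q R) : 0 < P.rho q x ∧ P.rho q x ≤ R := by
  refine ⟨lt_of_le_of_ne (rho_nn q x) (rho_ne hC hr hx).symm, (rho_le q x).trans ?_⟩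
  have := hx.2
  rw [mem_ball, dist_eq_norm] at this
  exact this.le

theorem sq_int {q : E d} {R : ℝ} (hC : P.Con q R) (hr : 1 ≤ P.rk q)
    (h : PP P T (ball q R \ {x | P.rho q x = 0}))
    (hw : IntegrableOn (fun x => (P.rho q x)⁻¹ * sq T x) (P.Om ∩ ball q R)) {K : Set (E d)}
    (hKs : K ⊆ ball q R) (hK : IsCompact K) : IntegrableOn (sq T) (P.Om ∩ K) := by
  have hsub : P.Om ∩ K ⊆ P.Om ∩ ball q R := inter_subset_inter_right _ hKs
  have hmeas : MeasurableSet (P.Om ∩ K) := P.measurableSet_Om.inter hK.measurableSet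
  apply Integrable.mono' ((hw.mono_set hsub).const_mul R)
  · exact ((sm_sq (isOpen_V0 q R) h.sm).mono
      (hsub.trans (om_V0 hC hr).ge)).aestronglyMeasurable hmeas
  · filter_upwards [ae_restrict_mem hmeas] with x hx
    obtain ⟨h1, h2⟩ := rho_pos' hC hr (hsub hx)
    rw [Real.norm_of_nonneg (sq_nn T x)]
    have h3 : (1 : ℝ) ≤ R * (P.rho q x)⁻¹ := by
      rw [← div_eq_mul_inv, le_div_iff₀ h1]; linarith
    calc sq T x = 1 * sq T x := (one_mul _).symm
      _ ≤ (R * (P.rho q x)⁻¹) * sq T x := mul_le_mul_of_nonneg_right h3 (sq_nn T x)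
      _ = _ := by ring

theorem rho_gsq_int {q : E d} {R : ℝ} (hC : P.Con q R) (hr : 1 ≤ P.rk q)
    (h : PP P T (ball q R \ {x | P.rho q x = 0}))
    (hw : IntegrableOn (fun x => (P.rho q x)⁻¹ * sq T x) (P.Om ∩ ball q R)) {K : Set (E d)}
    (hKs : K ⊆ ball q R) (hK : IsCompact K) :
    IntegrableOn (fun x => P.rho q x * gsq T x) (P.Om ∩ K) := by
  obtain ⟨C, hC0, χ, hχ, hlim⟩ := exists_cuts P q
  obtain ⟨η, hη, hc, hs, hη1, hηK⟩ := exists_eta hC.pos hK hKs
  have hη' : ContDiff ℝ 1 η := hη.of_le (by exact_mod_cast le_top)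
  obtain ⟨M, hM0, hM⟩ := grad_bdd hη' hc
  have hV0 := isOpen_V0 (P := P) q R
  have hmeas : MeasurableSet (P.Om ∩ tsupport η) :=
    P.measurableSet_Om.inter (isClosed_tsupport _).measurableSet
  have hsubR : P.Om ∩ tsupport η ⊆ P.Om ∩ ball q R := inter_subset_inter_right _ hs
  have hsub : P.Om ∩ tsupport η ⊆ P.Om ∩ (ball q R \ {x | P.rho q x = 0}) := by
    rw [om_V0 hC hr]; exact hsubR
  have hR : 0 < R := hC.pos
  set D : ℝ := R * M + 2 * C + 1 / 2 with hD
  have hD0 : 0 ≤ D := by positivity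
  have h1 : IntegrableOn (fun x => η x ^ 2 * (P.rho q x * gsq T x)) (P.Om ∩ tsupport η) := by
    apply fatou_int (a := fun n x => χ n x ^ 2)
      (B := 4 * (D ^ 2 * ∫ x in P.Om ∩ ball q R, (P.rho q x)⁻¹ * sq T x))
    · exact fun x => mul_nonneg (by positivity) (mul_nonneg (rho_nn q x) (gsq_nn T x))
    · exact ((hη.continuous.pow 2).continuousOn.mul ((rho_cont q).continuousOn.mul
        ((sm_gsq hV0 h.sm).mono hsub))).aestronglyMeasurable hmeas
    · intro n
      have i1 := int_cut h (hχ n).sm (hχ n).rng (hχ n).hz hη hc hs hη1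
      have i2 : IntegrableOn (fun x => R * (χ n x ^ 2 * (η x ^ 2 * gsq T x)))
        (P.Om ∩ tsupport η) := i1.const_mul R
      apply Integrable.mono' i2
      · exact (((hχ n).sm.continuous.pow 2).continuousOn.mul
          ((hη.continuous.pow 2).continuousOn.mul ((rho_cont q).continuousOn.mul
          ((sm_gsq hV0 h.sm).mono hsub)))).aestronglyMeasurable hmeas
      · filter_upwards [ae_restrict_mem hmeas] with x hx
        obtain ⟨h1, h2⟩ := rho_pos' hC hr (hsubR hx)
        have h3 := gsq_nn T x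
        rw [Real.norm_of_nonneg (by positivity)]
        calc χ n x ^ 2 * (η x ^ 2 * (P.rho q x * gsq T x))
            = P.rho q x * (χ n x ^ 2 * (η x ^ 2 * gsq T x)) := by ring
          _ ≤ _ := mul_le_mul_of_nonneg_right h2 (by positivity)
    · exact fun n x => by positivity
    · intro n
      obtain ⟨s1, s2, s3⟩ := supp_cut (hχ n).hz hc hs
      have hss : tsupport (fun x => √(P.rho q x) * (χ n x * η x))
          ⊆ tsupport (fun x => χ n x * η x) := by
        apply closure_mono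
        intro x hx
        rw [Function.mem_support] at hx ⊢
        intro h0; exact hx (by rw [h0, mul_zero])
      have hc' : HasCompactSupport (fun x => √(P.rho q x) * (χ n x * η x)) :=
        HasCompactSupport.of_support_subset_isCompact s1 ((subset_tsupport _).trans hss)
      have h2 := caccioppoli hV0 h ((hχ n).sqrt_c1 hη') hc' (hss.trans s3)
      have e1 : ∫ x in P.Om, (√(P.rho q x) * (χ n x * η x)) ^ 2 * gsq T x
          = ∫ x in P.Om ∩ tsupport η, χ n x ^ 2 * (η x ^ 2 * (P.rho q x * gsq T x)) := by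
        rw [setInt_supp (K := tsupport η) _ fun x hx => by
          rw [image_eq_zero_of_notMem_tsupport hx]; ring]
        apply setIntegral_congr_fun hmeas
        intro x _
        simp only [mul_pow, Real.sq_sqrt (rho_nn q x)]; ring
      rw [← e1]
      refine h2.trans (mul_le_mul_of_nonneg_left ?_ (by norm_num))
      rw [setInt_supp (K := tsupport η) _ fun x hx => by
        rw [grad_of_notMem fun h => hx (s2 (hss h))]; simp]
      rw [← integral_const_mul]
      refine le_trans (integral_mono_of_nonneg (g := fun x => D ^ 2 * ((P.rho q x)⁻¹ * sq T x))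
        ?_ ?_ ?_) ?_
      · exact Eventually.of_forall fun x => mul_nonneg (by positivity) (sq_nn T x)
      · exact (hw.mono_set hsubR).const_mul _
      · filter_upwards [ae_restrict_mem hmeas] with x hx
        obtain ⟨p1, p2⟩ := rho_pos' hC hr (hsubR hx)
        rw [← mul_assoc]
        apply mul_le_mul_of_nonneg_right _ (sq_nn T x)
        set r := P.rho q x
        have hsr : 0 < √r := Real.sqrt_pos.2 p1
        have hsr2 : √r ^ 2 = r := Real.sq_sqrt p1.le
        have g1 : gradient (fun x => √(P.rho q x) * (χ n x * η x)) x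
            = √r • gradient (fun x => χ n x * η x) x
              + (χ n x * η x) • gradient (fun x => √(P.rho q x)) x :=
          grad_mul ((sqrt_rho_smooth p1.ne').differentiableAt (by simp))
            (((hχ n).sm.differentiable (by simp) x).mul (hη.differentiable (by simp) x))
        have g2 : ‖gradient (fun x => χ n x * η x) x‖ ≤ M + 2 * C / r := by
          rw [grad_mul ((hχ n).sm.differentiable (by simp) x) (hη.differentiable (by simp) x)]
          refine (norm_add_le _ _).trans ?_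
          rw [norm_smul, norm_smul, Real.norm_of_nonneg ((hχ n).rng x).1,
            Real.norm_of_nonneg (hη1 x).1]
          have h2 : χ n x * ‖gradient η x‖ ≤ 1 * M :=
            mul_le_mul ((hχ n).rng x).2 (hM x) (norm_nonneg _) zero_le_one
          have h3 : η x * ‖gradient (χ n) x‖ ≤ 1 * (2 * C / r) :=
            mul_le_mul (hη1 x).2 ((hχ n).grad_le hC0 p1.ne') (norm_nonneg _) zero_le_one
          linarith
        have g3 := grad_sqrt_rho (P := P) (q := q) (x := x) p1.ne'
        have g4 : ‖gradient (fun x => √(P.rho q x) * (χ n x * η x)) x‖ ≤ D / √r := by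
          rw [g1]
          refine (norm_add_le _ _).trans ?_
          rw [norm_smul, norm_smul, Real.norm_of_nonneg hsr.le, Real.norm_of_nonneg
            (mul_nonneg ((hχ n).rng x).1 (hη1 x).1)]
          have h4 : χ n x * η x ≤ 1 :=
            mul_le_one₀ ((hχ n).rng x).2 (hη1 x).1 (hη1 x).2
          have h5 : χ n x * η x * ‖gradient (fun x => √(P.rho q x)) x‖
              ≤ 1 * (1 / (2 * √r)) := mul_le_mul h4 g3 (norm_nonneg _) zero_le_one
          have h6 : √r * ‖gradient (fun x => χ n x * η x) x‖ ≤ √r * (M + 2 * C / r) :=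
            mul_le_mul_of_nonneg_left g2 hsr.le
          have h7 : √r * (M + 2 * C / r) = (r * M + 2 * C) / √r := by
            rw [eq_div_iff hsr.ne']
            have : √r * (M + 2 * C / r) * √r = √r ^ 2 * (M + 2 * C / r) := by ring
            rw [this, hsr2]; field_simp
          have h8 : (r * M + 2 * C) / √r + 1 / (2 * √r) ≤ D / √r := by
            have : (r * M + 2 * C) / √r + 1 / (2 * √r) = (r * M + 2 * C + 1 / 2) / √r := by
              field_simp
            rw [this]
            apply div_le_div_of_nonneg_right _ hsr.le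
            rw [hD]
            have := mul_le_mul_of_nonneg_right p2 hM0
            linarith
          linarith
        calc ‖gradient (fun x => √(P.rho q x) * (χ n x * η x)) x‖ ^ 2 ≤ (D / √r) ^ 2 :=
              pow_le_pow_left₀ (norm_nonneg _) g4 2
          _ = D ^ 2 * r⁻¹ := by rw [div_pow, hsr2, div_eq_mul_inv]
      · rw [integral_const_mul, integral_const_mul]
        apply mul_le_mul_of_nonneg_left _ (by positivity)
        apply setIntegral_mono_set hw
        · filter_upwards [ae_restrict_mem (P.measurableSet_Om.inter measurableSet_ball)] with x hx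
          exact mul_nonneg (inv_nonneg.2 (rho_nn q x)) (sq_nn T x)
        · exact hsubR.eventuallyLE
    · filter_upwards [ae_restrict_mem hmeas] with x hx
      simpa using (hlim x (rho_ne hC hr (hsubR hx))).pow 2
  have hKs' : K ⊆ tsupport η := fun x hx => subset_tsupport _ (by
    rw [Function.mem_support, hηK x hx]; exact one_ne_zero)
  refine (h1.mono_set (inter_subset_inter_right _ hKs')).congr_fun (fun x hx => ?_)
    (P.measurableSet_Om.inter hK.measurableSet)
  simp only [hηK x hx.2, one_pow, one_mul]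

theorem sqrt_int {q : E d} {R : ℝ} (hC : P.Con q R) (hr : 2 ≤ P.rk q)
    (h : PP P T (ball q R \ {x | P.rho q x = 0})) {K : Set (E d)}
    (hKs : K ⊆ ball q R) (hK : IsCompact K)
    (i3 : IntegrableOn (fun x => P.rho q x * gsq T x) (P.Om ∩ K)) :
    IntegrableOn (fun x => √(gsq T x)) (P.Om ∩ K) := by
  have hr1 : 1 ≤ P.rk q := by omega
  have hsub : P.Om ∩ K ⊆ P.Om ∩ ball q R := inter_subset_inter_right _ hKs
  have hmeas : MeasurableSet (P.Om ∩ K) := P.measurableSet_Om.inter hK.measurableSet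
  have i4 : IntegrableOn (fun x => (P.rho q x)⁻¹) (P.Om ∩ K) :=
    (rho_inv_int P hr R).mono_set (inter_subset_right.trans hKs)
  apply Integrable.mono' ((i3.add i4).div_const 2)
  · exact ((sm_gsq (isOpen_V0 q R) h.sm).mono
      (hsub.trans (om_V0 hC hr1).ge)).sqrt.aestronglyMeasurable hmeas
  · filter_upwards [ae_restrict_mem hmeas] with x hx
    obtain ⟨h1, h2⟩ := rho_pos' hC hr1 (hsub hx)
    rw [Real.norm_of_nonneg (Real.sqrt_nonneg _)]
    change √(gsq T x) ≤ (P.rho q x * gsq T x + (P.rho q x)⁻¹) / 2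
    have h3 := Real.sq_sqrt (gsq_nn T x)
    set a := √(gsq T x)
    set r := P.rho q x
    rw [← h3]
    have h4 : r * a ^ 2 + r⁻¹ - 2 * a = r * (a - r⁻¹) ^ 2 := by field_simp; ring
    have h5 : 0 ≤ r * (a - r⁻¹) ^ 2 := by positivity
    linarith

theorem rem_key {q : E d} {R : ℝ}
    (h : PP P T (ball q R \ {x | P.rho q x = 0})) {χ : E d → ℝ}
    (hχ : ContDiff ℝ ∞ χ) (hz : ∃ t > 0, ∀ x, P.rho q x < t → χ x = 0)
    {δ : ℝ} (hδ : 0 < δ) {ψ : E d → ℝ} (hψ : ContDiff ℝ 1 ψ) (hc : HasCompactSupport ψ)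
    (hs : tsupport ψ ⊆ ball q R)
    (j1 : IntegrableOn (fun x => χ x * ⟪gG δ T x, gradient ψ x⟫) (P.Om ∩ tsupport ψ))
    (hi : IntegrableOn (fun x => ψ x * ⟪gG δ T x, gradient χ x⟫) (P.Om ∩ tsupport ψ)) :
    (∫ x in P.Om ∩ tsupport ψ, χ x * ⟪gG δ T x, gradient ψ x⟫)
      + (∫ x in P.Om ∩ tsupport ψ, ψ x * ⟪gG δ T x, gradient χ x⟫)
      = - ∫ x in P.Om ∩ tsupport ψ, χ x * (ψ x * eG δ T x) := by
  set K := tsupport ψ with hK
  have hKc : IsCompact K := hc
  have hmeas : MeasurableSet (P.Om ∩ K) := P.measurableSet_Om.inter hKc.measurableSet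
  obtain ⟨s1, s2, s3⟩ := supp_cut hz hc hs
  have h1 := h.eq δ hδ (fun x => χ x * ψ x) ((hχ.of_le (by exact_mod_cast le_top)).mul hψ)
    s1 s3
  rw [← integral_add j1 hi]
  have e3 : ∫ x in P.Om, ⟪gG δ T x, gradient (fun x => χ x * ψ x) x⟫
      = ∫ x in P.Om ∩ K, (χ x * ⟪gG δ T x, gradient ψ x⟫
        + ψ x * ⟪gG δ T x, gradient χ x⟫) := by
    rw [setInt_supp (K := K) _ fun x hx => by
      rw [grad_of_notMem fun h => hx (s2 h), inner_zero_right]]
    apply setIntegral_congr_fun hmeas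
    intro x _
    simp only []
    rw [grad_mul (hχ.differentiable (by simp) x) (hψ.differentiable one_ne_zero x),
      inner_add_right, real_inner_smul_right, real_inner_smul_right]
  have e4 : ∫ x in P.Om, χ x * ψ x * eG δ T x
      = ∫ x in P.Om ∩ K, χ x * (ψ x * eG δ T x) := by
    rw [setInt_supp (K := K) _ fun x hx => by
      rw [image_eq_zero_of_notMem_tsupport hx, mul_zero, zero_mul]]
    simp only [mul_assoc]
  rw [← e3, h1, e4]

/-- weighted bound for the flux through the tubes -/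
theorem flux_bd {q : E d} {R : ℝ} (hC : P.Con q R) (hr : 3 ≤ P.rk q)
    (h : PP P T (ball q R \ {x | P.rho q x = 0})) {C : ℝ} (hC0 : 0 < C) {χ : ℕ → E d → ℝ}
    (hχ : ∀ n : ℕ, Cut P q C (1 / ((n : ℝ) + 1)) (χ n))
    {δ : ℝ} (hδ : 0 < δ) {ψ : E d → ℝ} (hψ : Continuous ψ) (hc : HasCompactSupport ψ)
    (hs : tsupport ψ ⊆ ball q R)
    (i3 : IntegrableOn (fun x => P.rho q x * gsq T x) (P.Om ∩ tsupport ψ)) :
    (∀ n, IntegrableOn (fun x => ψ x * ⟪gG δ T x, gradient (χ n) x⟫) (P.Om ∩ tsupport ψ)) ∧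
    ∃ A : ℝ, 0 ≤ A ∧ ∃ B : ℕ → ℝ, Tendsto B atTop (𝓝 0) ∧ ∀ n, ∀ l : ℝ, 0 < l →
      |∫ x in P.Om ∩ tsupport ψ, ψ x * ⟪gG δ T x, gradient (χ n) x⟫| ≤ l * A + B n / l := by
  set K := tsupport ψ with hK
  have hr1 : 1 ≤ P.rk q := by omega
  have hKc : IsCompact K := hc
  have hV0 := isOpen_V0 (P := P) q R
  have hmeas : MeasurableSet (P.Om ∩ K) := P.measurableSet_Om.inter hKc.measurableSet
  have hsubR : P.Om ∩ K ⊆ P.Om ∩ ball q R := inter_subset_inter_right _ hs
  have hsub : P.Om ∩ K ⊆ P.Om ∩ (ball q R \ {x | P.rho q x = 0}) := by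
    rw [om_V0 hC hr1]; exact hsubR
  have := fin_OmK (P := P) K
  obtain ⟨M, hM0, hM⟩ := fun_bdd hψ hc
  obtain ⟨C', hC', htube⟩ := tube_vol P (q := q) R
  set S : ℕ → Set (E d) := fun n => {x | 1 / ((n : ℝ) + 1) ≤ P.rho q x ∧
    P.rho q x ≤ 2 * (1 / ((n : ℝ) + 1))} with hS
  have hSm : ∀ n, MeasurableSet (S n) := fun n =>
    ((isClosed_le continuous_const (rho_cont q)).inter
      (isClosed_le (rho_cont q) continuous_const)).measurableSet
  have tpos : ∀ n : ℕ, (0 : ℝ) < 1 / ((n : ℝ) + 1) := fun n => by positivity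
  have tle : ∀ n : ℕ, 1 / ((n : ℝ) + 1) ≤ 1 := fun n => by
    rw [div_le_one (by positivity)]; linarith [(Nat.cast_nonneg n : (0 : ℝ) ≤ n)]
  have pt : ∀ n : ℕ, ∀ l : ℝ, 0 < l → ∀ x, ‖ψ x * ⟪gG δ T x, gradient (χ n) x⟫‖
      ≤ l * (S n).indicator (fun _ => M * C ^ 2 / 2 / (1 / ((n : ℝ) + 1)) ^ 3) x
        + (S n).indicator (fun x => M / 2 * (P.rho q x * gsq T x)) x / l := by
    intro n l hl x
    by_cases hx : x ∈ S n
    · rw [indicator_of_mem hx, indicator_of_mem hx]
      have h1 : |⟪gG δ T x, gradient (χ n) x⟫| ≤ √(gsq T x) * (C / (1 / ((n : ℝ) + 1))) :=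
        (abs_real_inner_le_norm _ _).trans
          (mul_le_mul (norm_gG_le hδ T x) ((hχ n).grad x) (norm_nonneg _) (Real.sqrt_nonneg _))
      have h2 := Real.sq_sqrt (gsq_nn T x)
      rw [Real.norm_eq_abs, abs_mul]
      have ht := tpos n
      have htx : 1 / ((n : ℝ) + 1) ≤ P.rho q x := hx.1
      set a := √(gsq T x)
      set t := 1 / ((n : ℝ) + 1)
      have ha : 0 ≤ a := Real.sqrt_nonneg _
      have h3 : a * (C / t) ≤ (l * (C ^ 2 / t ^ 3) + P.rho q x * a ^ 2 / l) / 2 := by
        have h4 : l * (C ^ 2 / t ^ 3) + t * a ^ 2 / l - 2 * (a * (C / t))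
            = t / l * (a - C * l / t ^ 2) ^ 2 := by field_simp; ring
        have h5 : 0 ≤ t / l * (a - C * l / t ^ 2) ^ 2 := by positivity
        have h6 : t * a ^ 2 / l ≤ P.rho q x * a ^ 2 / l := by gcongr
        linarith
      calc |ψ x| * |⟪gG δ T x, gradient (χ n) x⟫| ≤ M * (a * (C / t)) :=
            mul_le_mul (hM x) h1 (abs_nonneg _) hM0
        _ ≤ M * ((l * (C ^ 2 / t ^ 3) + P.rho q x * a ^ 2 / l) / 2) :=
            mul_le_mul_of_nonneg_left h3 hM0
        _ = _ := by rw [← h2]; ring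
    · rw [indicator_of_notMem hx, indicator_of_notMem hx]
      have h1 : gradient (χ n) x = 0 := by
        apply (hχ n).gz
        by_contra h0
        rw [not_or, not_lt, not_lt] at h0
        exact hx h0
      rw [h1, inner_zero_right]; simp
  have iA : ∀ n : ℕ, IntegrableOn
      ((S n).indicator (fun _ => M * C ^ 2 / 2 / (1 / ((n : ℝ) + 1)) ^ 3)) (P.Om ∩ K) := fun n =>
    Integrable.indicator (integrable_const _) (hSm n)
  have iB : ∀ n : ℕ, IntegrableOn
      ((S n).indicator (fun x => M / 2 * (P.rho q x * gsq T x))) (P.Om ∩ K) := fun n =>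
    Integrable.indicator (i3.const_mul _) (hSm n)
  have cgχ : ∀ n, Continuous (gradient (χ n)) := fun n =>
    cont_grad' ((hχ n).sm.of_le (by exact_mod_cast le_top))
  have hi : ∀ n, IntegrableOn (fun x => ψ x * ⟪gG δ T x, gradient (χ n) x⟫) (P.Om ∩ K) := by
    intro n
    apply Integrable.mono' (((iA n).const_mul 1).add ((iB n).div_const 1))
      ((hψ.continuousOn.mul (((sm_gG hδ hV0 h.sm).mono hsub).inner
        (cgχ n).continuousOn)).aestronglyMeasurable hmeas)
    exact Eventually.of_forall fun x => pt n 1 one_pos x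
  refine ⟨hi, M * C ^ 2 / 2 * (C' * 3 ^ P.rk q), by positivity,
    fun n => ∫ x in P.Om ∩ K, (S n).indicator (fun x => M / 2 * (P.rho q x * gsq T x)) x, ?_, ?_⟩
  · have h0 : (0 : ℝ) = ∫ x in P.Om ∩ K, (0 : ℝ) := by simp
    rw [h0]
    apply tendsto_integral_of_dominated_convergence
      (bound := fun x => M / 2 * (P.rho q x * gsq T x))
    · exact fun n => (iB n).1
    · exact i3.const_mul _
    · intro n
      refine Eventually.of_forall fun x => ?_
      have h1 : 0 ≤ M / 2 * (P.rho q x * gsq T x) :=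
        mul_nonneg (by positivity) (mul_nonneg (rho_nn q x) (gsq_nn T x))
      by_cases hx : x ∈ S n
      · rw [indicator_of_mem hx, Real.norm_of_nonneg h1]
      · rw [indicator_of_notMem hx, norm_zero]; exact h1
    · filter_upwards [ae_restrict_mem hmeas] with x hx
      obtain ⟨p1, p2⟩ := rho_pos' hC hr1 (hsubR hx)
      apply tendsto_const_nhds.congr'
      have h1 : ∀ᶠ n : ℕ in atTop, 1 / ((n : ℝ) + 1) < P.rho q x / 2 :=
        (tendsto_order.1 tendsto_one_div_add_atTop_nhds_zero_nat).2 _ (by positivity)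
      filter_upwards [h1] with n hn
      rw [indicator_of_notMem]
      intro hx'
      have := hx'.2
      linarith
  · intro n l hl
    have hvol : ∫ x in P.Om ∩ K, (S n).indicator
        (fun _ => M * C ^ 2 / 2 / (1 / ((n : ℝ) + 1)) ^ 3) x
        ≤ M * C ^ 2 / 2 * (C' * 3 ^ P.rk q) := by
      rw [integral_indicator (hSm n), Measure.restrict_restrict (hSm n), setIntegral_const,
        smul_eq_mul]
      have ht := tpos n
      have ht1 := tle n
      have h1 : volume.real (S n ∩ (P.Om ∩ K)) ≤ C' * (3 * (1 / ((n : ℝ) + 1))) ^ P.rk q := by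
        refine le_trans ?_ (htube _ (by positivity))
        apply ENNReal.toReal_mono
        · exact ((measure_mono inter_subset_left).trans_lt measure_ball_lt_top).ne
        · apply measure_mono
          intro x hx
          refine ⟨hs hx.2.2, ?_⟩
          have := hx.1.2
          change P.rho q x < _
          linarith
      set t := 1 / ((n : ℝ) + 1)
      have h2 : t ^ P.rk q ≤ t ^ 3 := pow_le_pow_of_le_one ht.le ht1 hr
      calc volume.real (S n ∩ (P.Om ∩ K)) * (M * C ^ 2 / 2 / t ^ 3)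
          ≤ (C' * (3 ^ P.rk q * t ^ 3)) * (M * C ^ 2 / 2 / t ^ 3) := by
            apply mul_le_mul_of_nonneg_right _ (by positivity)
            refine h1.trans (mul_le_mul_of_nonneg_left ?_ hC'.le)
            rw [mul_pow]
            exact mul_le_mul_of_nonneg_left h2 (by positivity)
        _ = _ := by field_simp
    calc |∫ x in P.Om ∩ K, ψ x * ⟪gG δ T x, gradient (χ n) x⟫|
        ≤ ∫ x in P.Om ∩ K, ‖ψ x * ⟪gG δ T x, gradient (χ n) x⟫‖ := by
          rw [← Real.norm_eq_abs]
          exact norm_integral_le_integral_norm _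
      _ ≤ ∫ x in P.Om ∩ K,
          (l * (S n).indicator (fun _ => M * C ^ 2 / 2 / (1 / ((n : ℝ) + 1)) ^ 3) x
            + (S n).indicator (fun x => M / 2 * (P.rho q x * gsq T x)) x / l) := by
          apply integral_mono_of_nonneg (Eventually.of_forall fun x => norm_nonneg _)
          · exact ((iA n).const_mul l).add ((iB n).div_const l)
          · exact Eventually.of_forall fun x => pt n l hl x
      _ = l * (∫ x in P.Om ∩ K, (S n).indicator
            (fun _ => M * C ^ 2 / 2 / (1 / ((n : ℝ) + 1)) ^ 3) x)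
            + (∫ x in P.Om ∩ K, (S n).indicator
              (fun x => M / 2 * (P.rho q x * gsq T x)) x) / l := by
          rw [integral_add ((iA n).const_mul l) ((iB n).div_const l), integral_const_mul,
            integral_div]
      _ ≤ _ := by gcongr

/-- **FL.** flux -/
theorem flux {q : E d} {R : ℝ} (hC : P.Con q R) (hr : 3 ≤ P.rk q)
    (h : PP P T (ball q R \ {x | P.rho q x = 0}))
    (hw : IntegrableOn (fun x => (P.rho q x)⁻¹ * sq T x) (P.Om ∩ ball q R)) :
    (∀ K ⊆ ball q R, IsCompact K → IntegrableOn (sq T) (P.Om ∩ K)) ∧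
    (∀ K ⊆ ball q R, IsCompact K → IntegrableOn (fun x => Real.sqrt (gsq T x)) (P.Om ∩ K)) ∧
    (∀ δ > 0, ∀ K ⊆ ball q R, IsCompact K → IntegrableOn (eG δ T) (P.Om ∩ K)) ∧
    ∀ δ > 0, ∀ ψ : E d → ℝ, ContDiff ℝ 1 ψ → HasCompactSupport ψ → tsupport ψ ⊆ ball q R →
      ∫ x in P.Om, ⟪gG δ T x, gradient ψ x⟫ = - ∫ x in P.Om, ψ x * eG δ T x := by
  have hr1 : 1 ≤ P.rk q := by omega
  have hr2 : 2 ≤ P.rk q := by omega
  have hV0 := isOpen_V0 (P := P) q R
  obtain ⟨C, hC0, χ, hχ, hlim⟩ := exists_cuts P q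
  have i3 : ∀ K ⊆ ball q R, IsCompact K →
      IntegrableOn (fun x => P.rho q x * gsq T x) (P.Om ∩ K) :=
    fun K hKs hK => rho_gsq_int hC hr1 h hw hKs hK
  have i4 : ∀ K ⊆ ball q R, IsCompact K → IntegrableOn (fun x => √(gsq T x)) (P.Om ∩ K) :=
    fun K hKs hK => sqrt_int hC hr2 h hKs hK (i3 K hKs hK)
  have i5 : ∀ δ > 0, ∀ K ⊆ ball q R, IsCompact K → IntegrableOn (eG δ T) (P.Om ∩ K) := by
    intro δ hδ K hKs hK
    obtain ⟨η, hη, hc, hs, hη1, hηK⟩ := exists_eta hC.pos hK hKs
    have hη' : ContDiff ℝ 1 η := hη.of_le (by exact_mod_cast le_top)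
    obtain ⟨M, hM0, hM⟩ := grad_bdd hη' hc
    have hKc : IsCompact (tsupport η) := hc
    have hmeas : MeasurableSet (P.Om ∩ tsupport η) :=
      P.measurableSet_Om.inter (isClosed_tsupport _).measurableSet
    have hsubR : P.Om ∩ tsupport η ⊆ P.Om ∩ ball q R := inter_subset_inter_right _ hs
    have hsub : P.Om ∩ tsupport η ⊆ P.Om ∩ (ball q R \ {x | P.rho q x = 0}) := by
      rw [om_V0 hC hr1]; exact hsubR
    obtain ⟨hi, A, hA, B, hB, hAB⟩ := flux_bd hC hr h hC0 hχ hδ hη.continuous hc hs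
      (i3 _ hs hKc)
    obtain ⟨B', hB'⟩ := hB.bddAbove_range
    have hg := i4 _ hs hKc
    have bd1 : ∀ n x, ‖χ n x * ⟪gG δ T x, gradient η x⟫‖ ≤ √(gsq T x) * M := by
      intro n x
      rw [norm_mul, Real.norm_of_nonneg ((hχ n).rng x).1]
      calc χ n x * ‖⟪gG δ T x, gradient η x⟫‖ ≤ 1 * (√(gsq T x) * M) :=
            mul_le_mul ((hχ n).rng x).2 ((norm_inner_le_norm _ _).trans
              (mul_le_mul (norm_gG_le hδ T x) (hM x) (norm_nonneg _) (Real.sqrt_nonneg _)))
              (norm_nonneg _) zero_le_one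
        _ = _ := one_mul _
    have j1 : ∀ n, IntegrableOn (fun x => χ n x * ⟪gG δ T x, gradient η x⟫)
        (P.Om ∩ tsupport η) := by
      intro n
      apply Integrable.mono' (hg.mul_const M) (((hχ n).sm.continuous.continuousOn.mul
        (((sm_gG hδ hV0 h.sm).mono hsub).inner
          (cont_grad' hη').continuousOn)).aestronglyMeasurable hmeas)
      exact Eventually.of_forall fun x => bd1 n x
    have h1 : IntegrableOn (fun x => η x * eG δ T x) (P.Om ∩ tsupport η) := by
      apply fatou_int (a := fun n x => χ n x)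
        (B := (∫ x in P.Om ∩ tsupport η, √(gsq T x) * M) + (A + B'))
      · exact fun x => mul_nonneg (hη1 x).1 (eG_nn hδ T x)
      · exact (hη.continuous.continuousOn.mul
          ((sm_eG hδ hV0 h.sm).mono hsub)).aestronglyMeasurable hmeas
      · intro n
        have ht : (0 : ℝ) < 1 / ((n : ℝ) + 1) := by positivity
        apply Integrable.mono' ((i3 _ hs hKc).const_mul (1 / (1 / ((n : ℝ) + 1) * δ)))
        · exact ((hχ n).sm.continuous.continuousOn.mul (hη.continuous.continuousOn.mul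
            ((sm_eG hδ hV0 h.sm).mono hsub))).aestronglyMeasurable hmeas
        · filter_upwards [ae_restrict_mem hmeas] with x hx
          obtain ⟨p1, p2⟩ := rho_pos' hC hr1 (hsubR hx)
          have e0 := eG_nn hδ T x
          rw [Real.norm_of_nonneg (mul_nonneg ((hχ n).rng x).1 (mul_nonneg (hη1 x).1 e0))]
          by_cases hxt : P.rho q x ≤ 1 / ((n : ℝ) + 1)
          · rw [(hχ n).zero x hxt, zero_mul]
            exact mul_nonneg (by positivity) (mul_nonneg p1.le (gsq_nn T x))
          · have hxt' := not_le.1 hxt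
            set t := 1 / ((n : ℝ) + 1)
            calc χ n x * (η x * eG δ T x) ≤ 1 * (1 * (gsq T x / δ)) :=
                  mul_le_mul ((hχ n).rng x).2 (mul_le_mul (hη1 x).2 (eG_le hδ T x) e0 zero_le_one)
                    (mul_nonneg (hη1 x).1 e0) zero_le_one
              _ = 1 / (t * δ) * (t * gsq T x) := by field_simp
              _ ≤ _ := by
                apply mul_le_mul_of_nonneg_left _ (by positivity)
                exact mul_le_mul_of_nonneg_right hxt'.le (gsq_nn T x)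
      · exact fun n x => ((hχ n).rng x).1
      · intro n
        have k1 := rem_key h (hχ n).sm (hχ n).hz hδ hη' hc hs (j1 n) (hi n)
        have k2 := hAB n 1 one_pos
        have k3 : B n ≤ B' := hB' ⟨n, rfl⟩
        have k4 : |∫ x in P.Om ∩ tsupport η, χ n x * ⟪gG δ T x, gradient η x⟫|
            ≤ ∫ x in P.Om ∩ tsupport η, √(gsq T x) * M := by
          rw [← Real.norm_eq_abs]
          refine (norm_integral_le_integral_norm _).trans ?_
          exact integral_mono (j1 n).norm (hg.mul_const M) fun x => bd1 n x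
        rw [one_mul, div_one] at k2
        have k5 := neg_abs_le (∫ x in P.Om ∩ tsupport η, χ n x * ⟪gG δ T x, gradient η x⟫)
        have k6 := neg_abs_le (∫ x in P.Om ∩ tsupport η, η x * ⟪gG δ T x, gradient (χ n) x⟫)
        linarith
      · filter_upwards [ae_restrict_mem hmeas] with x hx
        exact hlim x (rho_ne hC hr1 (hsubR hx))
    have hKs' : K ⊆ tsupport η := fun x hx => subset_tsupport _ (by
      rw [Function.mem_support, hηK x hx]; exact one_ne_zero)
    refine (h1.mono_set (inter_subset_inter_right _ hKs')).congr_fun (fun x hx => ?_)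
      (P.measurableSet_Om.inter hK.measurableSet)
    simp only [hηK x hx.2, one_mul]
  refine ⟨fun K hKs hK => sq_int hC hr1 h hw hKs hK, i4, i5, ?_⟩
  intro δ hδ ψ hψ hc hs
  have hKc : IsCompact (tsupport ψ) := hc
  obtain ⟨hi, A, hA, B, hB, hAB⟩ := flux_bd hC hr h hC0 hχ hδ hψ.continuous hc hs (i3 _ hs hKc)
  exact rem_eq hC hr1 h (fun n => (hχ n).sm) (fun n => (hχ n).rng) (fun n => (hχ n).hz) hlim
    hδ hψ hc hs (i4 _ hs hKc) (i5 δ hδ _ hs hKc) hi (cs_tendsto hA hB hAB)

end

end Pool.Agent.Lib_helper81.Robin
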