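import Pool.Agent.Lib_helper13.Robin.W.FL
import Pool.Agent.Lib_helper13.Robin.W.MF
import Pool.Agent.Lib_helper13.Robin.W.TE
import Pool.Agent.Lib_helper13.Robin.W.CA
import Pool.Agent.Lib_helper13.Robin.W.CU
import Pool.Agent.Lib_helper13.Robin.W.PL
import Pool.Agent.Lib_helper81.Robin.FL

/-! # Robin project, block CO -/

namespace Pool.Agent.Lib_helper81.Robin

open Pool.Agent.Lib_helper13.Robin
open MeasureTheory Set Metric Filter Topology
open scoped RealInnerProductSpace ContDiff

noncomputable section

variable {d m : ℕ} {P : PD d m} {ι : Type} [Fintype ι] {T : ι → E d → ℝ}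

/-- **CO.** removal of strata of codimension ≥ 3 -/
theorem pp_corner {q : E d} {R : ℝ} (hC : P.Con q R) (hr : 3 ≤ P.rk q)
    (h : PP P T (ball q R \ {x | P.rho q x = 0}))
    (hw : IntegrableOn (fun x => (P.rho q x)⁻¹ * sq T x) (P.Om ∩ ball q R)) :
    PP P T (ball q R) := by
  have hr1 : 1 ≤ P.rk q := by omega
  have hV0 := isOpen_V0 (P := P) q R
  obtain ⟨f1, f2, f3, f4⟩ := flux hC hr h hw
  have hsm : ∀ i, ContDiffOn ℝ ∞ (T i) (P.Om ∩ ball q R) := fun i => by
    rw [← om_V0 hC hr1]; exact h.sm i
  obtain ⟨C, hC0, χ, hχ, hlim⟩ := exists_cuts P q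
  refine ⟨hsm, f1, ?_, f4⟩
  intro K hKs hK
  obtain ⟨η, hη, hc, hs, hη1, hηK⟩ := exists_eta hC.pos hK hKs
  have hη' : ContDiff ℝ 1 η := hη.of_le (by exact_mod_cast le_top)
  obtain ⟨M, hM0, hM⟩ := grad_bdd hη' hc
  have hKc : IsCompact (tsupport η) := hc
  have hmeas : MeasurableSet (P.Om ∩ tsupport η) :=
    P.measurableSet_Om.inter (isClosed_tsupport _).measurableSet
  obtain ⟨r, hr0, hηr⟩ := exists_pos_lt_subset_ball hC.pos (isClosed_tsupport η) hs
  -- the tube estimate
  have hball : ∀ s ∈ (P.N q)ᗮ, ‖s‖ < R → ball (q + s) (R - ‖s‖) ⊆ ball q R := by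
    intro s _ _
    apply ball_subset_ball'
    rw [dist_eq_norm, add_sub_cancel_left]; linarith
  obtain ⟨C', hC', htube⟩ := tube_est P hC (sq T) (sq_nn T) f1 (fun s hs hsR t1 t2 h1 h12 h2 =>
    mm_mono_of_flux P (hC.shift hs hsR)
      (fun i => (hsm i).mono (inter_subset_inter_right _ (hball s hs hsR)))
      (fun K hK hKc => f1 K (hK.trans (hball s hs hsR)) hKc)
      (fun K hK hKc => f2 K (hK.trans (hball s hs hsR)) hKc)
      (fun δ hδ K hK hKc => f3 δ hδ K (hK.trans (hball s hs hsR)) hKc)
      (fun δ hδ ψ hψ hc hs' => f4 δ hδ ψ hψ hc (hs'.trans (hball s hs hsR))) h1 h12 h2) hr0.2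
  have isq := f1 _ hs hKc
  apply int2_of_bound hC hr1 h (fun n => (hχ n).sm) (fun n => (hχ n).rng) (fun n => (hχ n).hz)
    hlim hη hc hs hη1 hK hηK
    (B := 4 * (2 * M ^ 2 * (∫ x in P.Om ∩ tsupport η, sq T x)
      + 2 * C ^ 2 * (C' * 3 ^ P.rk q)))
  intro n
  obtain ⟨s1, s2, s3⟩ := supp_cut (hχ n).hz hc hs
  have hχη : ContDiff ℝ 1 fun x => χ n x * η x :=
    ((hχ n).sm.of_le (by exact_mod_cast le_top)).mul hη'
  refine (caccioppoli hV0 h hχη s1 s3).trans ?_
  apply mul_le_mul_of_nonneg_left _ (by norm_num)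
  rw [setInt_supp (K := tsupport η) _ fun x hx => by
    rw [grad_of_notMem fun h => hx (s2 h)]; simp]
  have tpos : (0 : ℝ) < 1 / ((n : ℝ) + 1) := by positivity
  have tle : 1 / ((n : ℝ) + 1) ≤ 1 := by
    rw [div_le_one (by positivity)]; linarith [(Nat.cast_nonneg n : (0 : ℝ) ≤ n)]
  have hχn := hχ n
  set t := 1 / ((n : ℝ) + 1)
  set S : Set (E d) := {x | P.rho q x < 3 * t} with hS
  have hSm : MeasurableSet S := (isOpen_lt (rho_cont q) continuous_const).measurableSet
  calc ∫ x in P.Om ∩ tsupport η, ‖gradient (fun x => χ n x * η x) x‖ ^ 2 * sq T x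
      ≤ ∫ x in P.Om ∩ tsupport η, (2 * M ^ 2 * sq T x
          + 2 * (C / t) ^ 2 * S.indicator (sq T) x) := by
        apply integral_mono_of_nonneg
        · exact Eventually.of_forall fun x => mul_nonneg (by positivity) (sq_nn T x)
        · exact (isq.const_mul _).add ((Integrable.indicator isq hSm).const_mul _)
        · refine Eventually.of_forall fun x => ?_
          have h1 : ‖gradient (fun x => χ n x * η x) x‖ ≤ M + ‖gradient (χ n) x‖ := by
            rw [grad_mul (hχn.sm.differentiable (by simp) x) (hη.differentiable (by simp) x)]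
            refine (norm_add_le _ _).trans ?_
            rw [norm_smul, norm_smul, Real.norm_of_nonneg (hχn.rng x).1,
              Real.norm_of_nonneg (hη1 x).1]
            have h2 : χ n x * ‖gradient η x‖ ≤ 1 * M :=
              mul_le_mul (hχn.rng x).2 (hM x) (norm_nonneg _) zero_le_one
            have h3 : η x * ‖gradient (χ n) x‖ ≤ 1 * ‖gradient (χ n) x‖ :=
              mul_le_mul_of_nonneg_right (hη1 x).2 (norm_nonneg _)
            linarith
          have h0 := sq_nn T x
          change ‖gradient (fun x => χ n x * η x) x‖ ^ 2 * sq T x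
            ≤ 2 * M ^ 2 * sq T x + 2 * (C / t) ^ 2 * S.indicator (sq T) x
          by_cases hx : x ∈ S
          · rw [indicator_of_mem hx]
            have h2 : ‖gradient (fun x => χ n x * η x) x‖ ≤ M + C / t :=
              h1.trans (by linarith [hχn.grad x])
            have h3 : ‖gradient (fun x => χ n x * η x) x‖ ^ 2 ≤ 2 * M ^ 2 + 2 * (C / t) ^ 2 :=
              (pow_le_pow_left₀ (norm_nonneg _) h2 2).trans
                (by nlinarith [sq_nonneg (M - C / t)])
            calc _ ≤ (2 * M ^ 2 + 2 * (C / t) ^ 2) * sq T x := mul_le_mul_of_nonneg_right h3 h0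
              _ = _ := by ring
          · rw [indicator_of_notMem hx]
            have h2 : gradient (χ n) x = 0 := by
              apply hχn.gz
              right
              have : ¬ P.rho q x < 3 * t := hx
              linarith
            rw [h2, norm_zero, add_zero] at h1
            have h3 : ‖gradient (fun x => χ n x * η x) x‖ ^ 2 ≤ 2 * M ^ 2 :=
              (pow_le_pow_left₀ (norm_nonneg _) h1 2).trans (by nlinarith [sq_nonneg M])
            calc _ ≤ 2 * M ^ 2 * sq T x := mul_le_mul_of_nonneg_right h3 h0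
              _ = _ := by ring
    _ = 2 * M ^ 2 * (∫ x in P.Om ∩ tsupport η, sq T x)
          + 2 * (C / t) ^ 2 * ∫ x in P.Om ∩ tsupport η, S.indicator (sq T) x := by
        rw [integral_add (isq.const_mul _) ((Integrable.indicator isq hSm).const_mul _),
          integral_const_mul, integral_const_mul]
    _ ≤ _ := by
        have h1 : ∫ x in P.Om ∩ tsupport η, S.indicator (sq T) x ≤ C' * (3 * t) ^ P.rk q := by
          rw [integral_indicator hSm, Measure.restrict_restrict hSm]
          refine le_trans ?_ (htube (3 * t) (by positivity))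
          apply setIntegral_mono_set
          · refine (f1 (closedBall q r) (closedBall_subset_ball hr0.2)
              (isCompact_closedBall q r)).mono_set ?_
            exact inter_subset_inter_right _ (inter_subset_left.trans ball_subset_closedBall)
          · exact Eventually.of_forall fun x => sq_nn T x
          · have hsub : S ∩ (P.Om ∩ tsupport η) ⊆ P.Om ∩ (ball q r ∩ {x | P.rho q x < 3 * t}) :=
              fun x hx => ⟨hx.2.1, hηr hx.2.2, hx.1⟩
            exact hsub.eventuallyLE
        have h2 : t ^ P.rk q ≤ t ^ 2 := pow_le_pow_of_le_one tpos.le tle (by omega)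
        have h3 : 2 * (C / t) ^ 2 * (∫ x in P.Om ∩ tsupport η, S.indicator (sq T) x)
            ≤ 2 * C ^ 2 * (C' * 3 ^ P.rk q) := by
          calc _ ≤ 2 * (C / t) ^ 2 * (C' * (3 ^ P.rk q * t ^ 2)) := by
                apply mul_le_mul_of_nonneg_left _ (by positivity)
                refine h1.trans (mul_le_mul_of_nonneg_left ?_ hC'.le)
                rw [mul_pow]
                exact mul_le_mul_of_nonneg_left h2 (by positivity)
            _ = _ := by field_simp
        linarith

end

end Pool.Agent.Lib_helper81.Robin
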