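import Pool.Agent.Lib_helper81.Robin.Base

/-! # Robin project, block NP -/

namespace Pool.Agent.Lib_helper81.Robin

open Pool.Agent.Lib_helper13.Robin
open MeasureTheory Set Metric Filter Topology
open scoped RealInnerProductSpace ContDiff

noncomputable section

variable {d m : ℕ} {P : PD d m}

/-- `k(s) = s/√(δ²+s²)` -/
def kk (δ s : ℝ) : ℝ := s / √(δ ^ 2 + s ^ 2)

/-- `k'(s)` -/
def kk' (δ s : ℝ) : ℝ := δ ^ 2 / √(δ ^ 2 + s ^ 2) ^ 3

theorem kk_pos {δ : ℝ} (hδ : 0 < δ) (s : ℝ) : 0 < √(δ ^ 2 + s ^ 2) :=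
  Real.sqrt_pos.2 (by positivity)

theorem hasDerivAt_kk {δ : ℝ} (hδ : 0 < δ) (s : ℝ) : HasDerivAt (kk δ) (kk' δ s) s := by
  have h0 : 0 < δ ^ 2 + s ^ 2 := by positivity
  have hq := kk_pos hδ s
  have h1 : HasDerivAt (fun s : ℝ => δ ^ 2 + s ^ 2) (2 * s) s := by
    simpa using (hasDerivAt_pow 2 s).const_add (δ ^ 2)
  have h2 := (hasDerivAt_id s).div (h1.sqrt h0.ne') hq.ne'
  refine h2.congr_deriv ?_
  unfold kk'
  have h3 : √(δ ^ 2 + s ^ 2) ^ 2 = δ ^ 2 + s ^ 2 := Real.sq_sqrt h0.le
  simp only [id]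
  set q := √(δ ^ 2 + s ^ 2)
  have hq' : q ≠ 0 := hq.ne'
  rw [div_eq_div_iff (by positivity) (by positivity)]
  field_simp
  nlinarith [h3]

theorem abs_kk_le {δ : ℝ} (hδ : 0 < δ) (s : ℝ) : |kk δ s| ≤ 1 := by
  have hq := kk_pos hδ s
  rw [kk, abs_div, abs_of_pos hq, div_le_one hq]
  exact Real.le_sqrt_of_sq_le (by rw [sq_abs]; nlinarith [sq_nonneg δ])

theorem kk'_nn {δ : ℝ} (hδ : 0 < δ) (s : ℝ) : 0 ≤ kk' δ s := by
  have hq := kk_pos hδ s
  unfold kk'; positivity

theorem kk'_le {δ : ℝ} (hδ : 0 < δ) (s : ℝ) : kk' δ s ≤ 1 / δ := by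
  have hq := kk_pos hδ s
  have h1 : δ ≤ √(δ ^ 2 + s ^ 2) := Real.le_sqrt_of_sq_le (by nlinarith [sq_nonneg s])
  unfold kk'
  rw [div_le_div_iff₀ (by positivity) hδ, one_mul]
  calc δ ^ 2 * δ = δ ^ 3 := by ring
    _ ≤ _ := pow_le_pow_left₀ hδ.le h1 3

section
variable {w : E d → ℝ} {δ : ℝ} {x : E d}

theorem sq_unit (w : E d → ℝ) (x : E d) : sq (fun _ : Unit => w) x = w x ^ 2 := by
  simp [sq_def]

theorem gsq_unit (w : E d → ℝ) (x : E d) :
    gsq (fun _ : Unit => w) x = ‖gradient w x‖ ^ 2 := by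
  simp [gsq]

theorem tg_unit (w : E d → ℝ) (x : E d) : tg (fun _ : Unit => w) x = w x • gradient w x := by
  simp [tg]

theorem G_unit (w : E d → ℝ) (x : E d) : G δ (fun _ : Unit => w) x = √(δ ^ 2 + w x ^ 2) := by
  rw [G, sq_unit]

theorem gG_unit (w : E d → ℝ) (x : E d) :
    gG δ (fun _ : Unit => w) x = kk δ (w x) • gradient w x := by
  rw [gG, tg_unit, G_unit, smul_smul, kk, div_eq_inv_mul]

theorem eG_unit (hδ : 0 < δ) (w : E d → ℝ) (x : E d) :
    eG δ (fun _ : Unit => w) x = kk' δ (w x) * ‖gradient w x‖ ^ 2 := by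
  have hq := kk_pos hδ (w x)
  have h3 : √(δ ^ 2 + w x ^ 2) ^ 2 = δ ^ 2 + w x ^ 2 := Real.sq_sqrt (by positivity)
  rw [eG, gsq_unit, gG_unit, G_unit, norm_smul, mul_pow, Real.norm_eq_abs, sq_abs, kk, kk']
  set q := √(δ ^ 2 + w x ^ 2)
  have hq' : q ≠ 0 := hq.ne'
  rw [div_pow, h3]
  have h4 : δ ^ 2 + w x ^ 2 ≠ 0 := by positivity
  rw [show q ^ 3 = q ^ 2 * q by ring, h3]
  field_simp
  ring

theorem grad_kk (hδ : 0 < δ) (hw : DifferentiableAt ℝ w x) :
    gradient (fun y => kk δ (w y)) x = kk' δ (w x) • gradient w x := by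
  have h1 := (hasDerivAt_kk hδ (w x)).comp_hasFDerivAt x hw.hasFDerivAt
  have h2 : fderiv ℝ (fun y => kk δ (w y)) x = kk' δ (w x) • fderiv ℝ w x := h1.fderiv
  rw [grad_def, h2, map_smul]
  rfl

theorem diff_kk (hδ : 0 < δ) (hw : DifferentiableAt ℝ w x) :
    DifferentiableAt ℝ (fun y => kk δ (w y)) x :=
  ((hasDerivAt_kk hδ (w x)).comp_hasFDerivAt x hw.hasFDerivAt).differentiableAt

theorem contDiffAt_kk {n : WithTop ℕ∞} (hδ : 0 < δ) (hw : ContDiffAt ℝ n w x) :
    ContDiffAt ℝ n (fun y => kk δ (w y)) x := by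
  unfold kk
  apply hw.div ((contDiffAt_const.add (hw.pow 2)).sqrt _) (kk_pos hδ _).ne'
  positivity

end

/-- **NP.** -/
theorem nh_pp {V : Set (E d)} {w : E d → ℝ} (hV : IsOpen V) (h : NH P V w) :
    PP P (fun _ : Unit => w) V where
  sm _ := h.sm
  int1 K hK hc := (h.l2 K hK hc).congr_fun (fun x _ => (sq_unit w x).symm)
    (P.measurableSet_Om.inter hc.measurableSet)
  int2 K hK hc := (h.gl2 K hK hc).congr_fun (fun x _ => (gsq_unit w x).symm)
    (P.measurableSet_Om.inter hc.measurableSet)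
  eq δ hδ ψ hψ hc hs := by
    set K := tsupport ψ with hK
    have hKc : IsCompact K := hc
    have hsub : P.Om ∩ K ⊆ P.Om ∩ V := inter_subset_inter_right _ hs
    have hmeas : MeasurableSet (P.Om ∩ K) := P.measurableSet_Om.inter hKc.measurableSet
    obtain ⟨M, hM0, hM⟩ := grad_bdd hψ hc
    obtain ⟨M', hM0', hM'⟩ := fun_bdd hψ.continuous hc
    have i2 := h.gl2 K hs hKc
    have hOV := P.isOpen_Om.inter hV
    have cwd : ∀ x ∈ P.Om ∩ V, ContDiffAt ℝ 1 w x := fun x hx =>
      ((h.sm.of_le (by exact_mod_cast le_top)).contDiffAt (hOV.mem_nhds hx))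
    have cw : ContinuousOn w (P.Om ∩ K) := h.sm.continuousOn.mono hsub
    have cgw : ContinuousOn (gradient w) (P.Om ∩ K) :=
      (cont_grad hOV (h.sm.of_le (by exact_mod_cast le_top))).mono hsub
    have cg : ContinuousOn (gradient ψ) (P.Om ∩ K) := (cont_grad' hψ).continuousOn
    have cψ : ContinuousOn ψ (P.Om ∩ K) := hψ.continuous.continuousOn
    have ckk : ContinuousOn (fun x => kk δ (w x)) (P.Om ∩ K) := fun x hx =>
      ((contDiffAt_kk hδ (cwd x (hsub hx))).continuousAt).continuousWithinAt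
    have ckk' : ContinuousOn (fun x => kk' δ (w x)) (P.Om ∩ K) := by
      unfold kk'
      apply ContinuousOn.div continuousOn_const
        ((continuousOn_const.add (cw.pow 2)).sqrt.pow 3)
      intro x _; exact (pow_pos (kk_pos hδ _) 3).ne'
    have hfin : IsFiniteMeasure (volume.restrict (P.Om ∩ K)) :=
      ⟨by rw [Measure.restrict_apply_univ]; exact (measure_mono inter_subset_left).trans_lt
            P.volume_lt_top⟩
    -- the test function
    set φ : E d → ℝ := fun x => ψ x * kk δ (w x) with hφ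
    have hφs : tsupport φ ⊆ K := by
      apply closure_mono
      intro x hx
      rw [Function.mem_support] at hx ⊢
      intro h0; exact hx (by simp only [hφ, h0, zero_mul])
    have hφg : ∀ x ∈ P.Om ∩ V, gradient φ x
        = ψ x • (kk' δ (w x) • gradient w x) + kk δ (w x) • gradient ψ x := by
      intro x hx
      have hw := (cwd x hx).differentiableAt one_ne_zero
      rw [hφ, grad_mul (hψ.differentiable one_ne_zero x) (diff_kk hδ hw), grad_kk hδ hw]
    have hadm : Adm P V φ := by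
      refine ⟨?_, ⟨M', fun x _ => ?_⟩, ?_, K, hs, hKc, fun x _ hx => ?_⟩
      · intro x hx
        apply ContDiffAt.contDiffWithinAt
        by_cases hxV : x ∈ V
        · exact hψ.contDiffAt.mul (contDiffAt_kk hδ (cwd x ⟨hx, hxV⟩))
        · have h1 : x ∉ tsupport φ := fun h => hxV (hs (hφs h))
          have h2 : φ =ᶠ[𝓝 x] fun _ => 0 := notMem_tsupport_iff_eventuallyEq.1 h1
          exact contDiffAt_const.congr_of_eventuallyEq h2
      · rw [hφ, abs_mul]
        calc |ψ x| * |kk δ (w x)| ≤ M' * 1 :=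
              mul_le_mul (hM' x) (abs_kk_le hδ _) (abs_nonneg _) hM0'
          _ = M' := mul_one _
      · have h1 : IntegrableOn (fun x => ‖gradient φ x‖ ^ 2) (P.Om ∩ K) := by
          have b1 : IntegrableOn (fun x => 2 * (M' / δ) ^ 2 * ‖gradient w x‖ ^ 2 + 2 * M ^ 2)
              (P.Om ∩ K) := (i2.const_mul _).add (integrable_const _)
          have c1 : ContinuousOn (fun x => ‖ψ x • (kk' δ (w x) • gradient w x)
              + kk δ (w x) • gradient ψ x‖ ^ 2) (P.Om ∩ K) :=
            ((cψ.smul (ckk'.smul cgw)).add (ckk.smul cg)).norm.pow 2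
          have b2 : IntegrableOn (fun x => ‖ψ x • (kk' δ (w x) • gradient w x)
              + kk δ (w x) • gradient ψ x‖ ^ 2) (P.Om ∩ K) := by
            apply Integrable.mono' b1 (c1.aestronglyMeasurable hmeas)
            refine Eventually.of_forall fun x => ?_
            rw [Real.norm_of_nonneg (by positivity)]
            have n1 : ‖ψ x • (kk' δ (w x) • gradient w x)‖ ≤ M' / δ * ‖gradient w x‖ := by
              rw [norm_smul, norm_smul, Real.norm_eq_abs, Real.norm_of_nonneg (kk'_nn hδ _),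
                ← mul_assoc]
              apply mul_le_mul_of_nonneg_right _ (norm_nonneg _)
              calc |ψ x| * kk' δ (w x) ≤ M' * (1 / δ) :=
                    mul_le_mul (hM' x) (kk'_le hδ _) (kk'_nn hδ _) hM0'
                _ = M' / δ := by ring
            have n2 : ‖kk δ (w x) • gradient ψ x‖ ≤ M := by
              rw [norm_smul, Real.norm_eq_abs]
              calc |kk δ (w x)| * ‖gradient ψ x‖ ≤ 1 * M :=
                    mul_le_mul (abs_kk_le hδ _) (hM x) (norm_nonneg _) zero_le_one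
                _ = M := one_mul _
            have n3 := norm_add_le (ψ x • (kk' δ (w x) • gradient w x))
              (kk δ (w x) • gradient ψ x)
            have n4 : 0 ≤ M' / δ * ‖gradient w x‖ := by positivity
            calc _ ≤ (M' / δ * ‖gradient w x‖ + M) ^ 2 :=
                  pow_le_pow_left₀ (norm_nonneg _) (n3.trans (add_le_add n1 n2)) 2
              _ ≤ _ := by nlinarith [sq_nonneg (M' / δ * ‖gradient w x‖ - M)]
          refine b2.congr_fun (fun x hx => ?_) hmeas
          simp only [hφg x (hsub hx)]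
        apply IntegrableOn.of_forall_sdiff_eq_zero h1 P.measurableSet_Om
        intro x hx
        rw [grad_of_notMem fun h => hx.2 ⟨hx.1, hφs h⟩]; simp
      · exact by
          simp only [hφ]
          rw [image_eq_zero_of_notMem_tsupport hx, zero_mul]
    have key := h.weak φ hadm
    have e1 : ∫ x in P.Om, ⟪gradient w x, gradient φ x⟫
        = ∫ x in P.Om ∩ K, (⟪kk δ (w x) • gradient w x, gradient ψ x⟫
            + ψ x * (kk' δ (w x) * ‖gradient w x‖ ^ 2)) := by
      rw [setInt_supp (K := K) _ fun x hx => by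
        rw [grad_of_notMem fun h => hx (hφs h), inner_zero_right]]
      apply setIntegral_congr_fun hmeas
      intro x hx
      simp only [hφg x (hsub hx)]
      rw [inner_add_right, real_inner_smul_right, real_inner_smul_right, real_inner_smul_right,
        real_inner_self_eq_norm_sq, real_inner_smul_left]
      ring
    have e2 : ∫ x in P.Om, ⟪gG δ (fun _ : Unit => w) x, gradient ψ x⟫
        = ∫ x in P.Om ∩ K, ⟪kk δ (w x) • gradient w x, gradient ψ x⟫ := by
      rw [setInt_supp (K := K) _ fun x hx => by rw [grad_of_notMem hx, inner_zero_right]]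
      simp only [gG_unit]
    have e3 : ∫ x in P.Om, ψ x * eG δ (fun _ : Unit => w) x
        = ∫ x in P.Om ∩ K, ψ x * (kk' δ (w x) * ‖gradient w x‖ ^ 2) := by
      rw [setInt_supp (K := K) _ fun x hx => by
        rw [image_eq_zero_of_notMem_tsupport hx, zero_mul]]
      simp only [eG_unit hδ]
    have j1 : IntegrableOn (fun x => ⟪kk δ (w x) • gradient w x, gradient ψ x⟫) (P.Om ∩ K) := by
      have b1 : IntegrableOn (fun x => (‖gradient w x‖ ^ 2 + 1) / 2 * M) (P.Om ∩ K) :=
        ((i2.add (integrable_const 1)).div_const 2).mul_const M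
      apply Integrable.mono' b1 (((ckk.smul cgw).inner cg).aestronglyMeasurable hmeas)
      refine Eventually.of_forall fun x => ?_
      refine (norm_inner_le_norm _ _).trans (mul_le_mul ?_ (hM x) (norm_nonneg _) (by positivity))
      rw [norm_smul, Real.norm_eq_abs]
      calc |kk δ (w x)| * ‖gradient w x‖ ≤ 1 * ‖gradient w x‖ :=
            mul_le_mul_of_nonneg_right (abs_kk_le hδ _) (norm_nonneg _)
        _ ≤ _ := by nlinarith [sq_nonneg (‖gradient w x‖ - 1)]
    have j2 : IntegrableOn (fun x => ψ x * (kk' δ (w x) * ‖gradient w x‖ ^ 2)) (P.Om ∩ K) := by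
      apply Integrable.mono' (i2.const_mul (M' * (1 / δ)))
        ((cψ.mul (ckk'.mul (cgw.norm.pow 2))).aestronglyMeasurable hmeas)
      refine Eventually.of_forall fun x => ?_
      change ‖ψ x * (kk' δ (w x) * ‖gradient w x‖ ^ 2)‖ ≤ _
      rw [norm_mul, norm_mul, Real.norm_eq_abs, Real.norm_of_nonneg (kk'_nn hδ _),
        Real.norm_of_nonneg (by positivity), ← mul_assoc]
      apply mul_le_mul_of_nonneg_right _ (by positivity)
      exact mul_le_mul (hM' x) (kk'_le hδ _) (kk'_nn hδ _) hM0'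
    have e4 : ∫ x in P.Om ∩ K, (⟪kk δ (w x) • gradient w x, gradient ψ x⟫
            + ψ x * (kk' δ (w x) * ‖gradient w x‖ ^ 2))
        = (∫ x in P.Om ∩ K, ⟪kk δ (w x) • gradient w x, gradient ψ x⟫)
          + ∫ x in P.Om ∩ K, ψ x * (kk' δ (w x) * ‖gradient w x‖ ^ 2) := integral_add j1 j2
    rw [e1, e4] at key
    rw [e2, e3]
    linarith

end

end Pool.Agent.Lib_helper81.Robin
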