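import Pool.Agent.Lib_helper13.Robin.Geo

/-!
# Robin project (MP_88fc3a_an): pointwise facts about fields (helper81)
-/

namespace Pool.Agent.Lib_helper81.Robin

open Pool.Agent.Lib_helper13.Robin
open MeasureTheory Set Metric Filter Topology
open scoped RealInnerProductSpace ContDiff

noncomputable section

variable {d m : ℕ} {P : PD d m}

section grad

theorem grad_def (f : E d → ℝ) (x : E d) :
    gradient f x = (InnerProductSpace.toDual ℝ (E d)).symm (fderiv ℝ f x) := rfl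

theorem norm_grad (f : E d → ℝ) (x : E d) : ‖gradient f x‖ = ‖fderiv ℝ f x‖ := by
  rw [grad_def, LinearIsometryEquiv.norm_map]

theorem grad_congr {f g : E d → ℝ} {x : E d} (h : f =ᶠ[𝓝 x] g) : gradient f x = gradient g x := by
  rw [grad_def, grad_def, h.fderiv_eq]

theorem grad_of_notMem {ψ : E d → ℝ} {x : E d} (h : x ∉ tsupport ψ) : gradient ψ x = 0 := by
  rw [grad_def, fderiv_of_notMem_tsupport ℝ h, map_zero]

theorem grad_mul {f g : E d → ℝ} {x : E d} (hf : DifferentiableAt ℝ f x)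
    (hg : DifferentiableAt ℝ g x) :
    gradient (fun y => f y * g y) x = f x • gradient g x + g x • gradient f x := by
  rw [grad_def, grad_def, grad_def, fderiv_fun_mul hf hg, map_add, map_smul, map_smul]

theorem cont_grad {U : Set (E d)} (hU : IsOpen U) {f : E d → ℝ} (hf : ContDiffOn ℝ 1 f U) :
    ContinuousOn (gradient f) U := by
  have h1 : ContinuousOn (fderiv ℝ f) U := hf.continuousOn_fderiv_of_isOpen hU le_rfl
  exact (InnerProductSpace.toDual ℝ (E d)).symm.continuous.comp_continuousOn h1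

theorem cont_grad' {f : E d → ℝ} (hf : ContDiff ℝ 1 f) : Continuous (gradient f) := by
  have h1 : Continuous (fderiv ℝ f) := hf.continuous_fderiv one_ne_zero
  exact (InnerProductSpace.toDual ℝ (E d)).symm.continuous.comp h1

theorem grad_bdd {ψ : E d → ℝ} (hψ : ContDiff ℝ 1 ψ) (hc : HasCompactSupport ψ) :
    ∃ M, 0 ≤ M ∧ ∀ x, ‖gradient ψ x‖ ≤ M := by
  have h1 : Continuous fun x => ‖gradient ψ x‖ := (cont_grad' hψ).norm
  have h2 : HasCompactSupport fun x => ‖gradient ψ x‖ := by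
    apply HasCompactSupport.of_support_subset_isCompact hc
    intro x hx
    by_contra h
    exact hx (by simp [grad_of_notMem h])
  obtain ⟨M, hM⟩ := h1.bddAbove_range_of_hasCompactSupport h2
  exact ⟨M, (norm_nonneg _).trans (hM ⟨0, rfl⟩), fun x => hM ⟨x, rfl⟩⟩

theorem fun_bdd {ψ : E d → ℝ} (hψ : Continuous ψ) (hc : HasCompactSupport ψ) :
    ∃ M, 0 ≤ M ∧ ∀ x, |ψ x| ≤ M := by
  have h1 : Continuous fun x => ‖ψ x‖ := hψ.norm
  have h2 : HasCompactSupport fun x => ‖ψ x‖ := hc.norm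
  obtain ⟨M, hM⟩ := h1.bddAbove_range_of_hasCompactSupport h2
  exact ⟨M, (norm_nonneg _).trans (hM ⟨0, rfl⟩), fun x => hM ⟨x, rfl⟩⟩

end grad

section fields

variable {ι : Type} [Fintype ι] {T T' : ι → E d → ℝ} {δ : ℝ} {x : E d}

theorem sq_def (T : ι → E d → ℝ) (x : E d) :
    Pool.Agent.Lib_helper13.Robin.sq T x = ∑ i, T i x ^ 2 := rfl

theorem sq_nn (T : ι → E d → ℝ) (x : E d) : 0 ≤ sq T x := Finset.sum_nonneg fun i _ => sq_nonneg _

theorem gsq_nn (T : ι → E d → ℝ) (x : E d) : 0 ≤ gsq T x :=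
  Finset.sum_nonneg fun i _ => by positivity

theorem G_sq (δ : ℝ) (T : ι → E d → ℝ) (x : E d) : G δ T x ^ 2 = δ ^ 2 + sq T x := by
  have := sq_nn T x
  rw [G, Real.sq_sqrt (by positivity)]

theorem G_ge (hδ : 0 < δ) (T : ι → E d → ℝ) (x : E d) : δ ≤ G δ T x := by
  rw [G]
  apply Real.le_sqrt_of_sq_le
  linarith [sq_nn T x]

theorem G_pos (hδ : 0 < δ) (T : ι → E d → ℝ) (x : E d) : 0 < G δ T x :=
  hδ.trans_le (G_ge hδ T x)

theorem norm_tg_sq_le (T : ι → E d → ℝ) (x : E d) : ‖tg T x‖ ^ 2 ≤ sq T x * gsq T x := by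
  have h1 : ‖tg T x‖ ≤ ∑ i, |T i x| * ‖gradient (T i) x‖ := by
    refine (norm_sum_le _ _).trans (Finset.sum_le_sum fun i _ => ?_)
    rw [norm_smul, Real.norm_eq_abs]
  calc ‖tg T x‖ ^ 2 ≤ (∑ i, |T i x| * ‖gradient (T i) x‖) ^ 2 :=
        pow_le_pow_left₀ (norm_nonneg _) h1 2
    _ ≤ (∑ i, |T i x| ^ 2) * ∑ i, ‖gradient (T i) x‖ ^ 2 := Finset.sum_mul_sq_le_sq_mul_sq _ _ _
    _ = sq T x * gsq T x := by simp only [sq_def, gsq, sq_abs]

theorem norm_tg_le (T : ι → E d → ℝ) (x : E d) : ‖tg T x‖ ≤ √(sq T x) * √(gsq T x) := by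
  rw [← Real.sqrt_mul (sq_nn T x)]
  exact Real.le_sqrt_of_sq_le (norm_tg_sq_le T x)

theorem norm_tg_le' (T : ι → E d → ℝ) (x : E d) : ‖tg T x‖ ≤ (sq T x + gsq T x) / 2 := by
  have h1 := norm_tg_le T x
  have h2 := Real.sq_sqrt (sq_nn T x)
  have h3 := Real.sq_sqrt (gsq_nn T x)
  nlinarith [sq_nonneg (√(sq T x) - √(gsq T x))]

theorem norm_gG_sq_le (hδ : 0 < δ) (T : ι → E d → ℝ) (x : E d) :
    ‖gG δ T x‖ ^ 2 ≤ gsq T x := by
  have hG := G_pos hδ T x
  rw [gG, norm_smul, norm_inv, Real.norm_of_nonneg hG.le, mul_pow, inv_pow, G_sq,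
    inv_mul_le_iff₀ (by have := sq_nn T x; positivity)]
  refine (norm_tg_sq_le T x).trans ?_
  apply mul_le_mul_of_nonneg_right _ (gsq_nn T x)
  nlinarith [sq_nonneg δ]

theorem norm_gG_le (hδ : 0 < δ) (T : ι → E d → ℝ) (x : E d) :
    ‖gG δ T x‖ ≤ √(gsq T x) := Real.le_sqrt_of_sq_le (norm_gG_sq_le hδ T x)

theorem eG_nn (hδ : 0 < δ) (T : ι → E d → ℝ) (x : E d) : 0 ≤ eG δ T x := by
  rw [eG]
  exact div_nonneg (by linarith [norm_gG_sq_le hδ T x]) (G_pos hδ T x).le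

theorem eG_le (hδ : 0 < δ) (T : ι → E d → ℝ) (x : E d) : eG δ T x ≤ gsq T x / δ := by
  rw [eG]
  apply div_le_div₀ (gsq_nn T x) _ hδ (G_ge hδ T x)
  linarith [sq_nonneg ‖gG δ T x‖]

/-! ### continuity -/

theorem cont_sq {U : Set (E d)} (h : ∀ i, ContinuousOn (T i) U) : ContinuousOn (sq T) U := by
  change ContinuousOn (fun x => ∑ i, T i x ^ 2) U
  exact continuousOn_finsetSum _ fun i _ => (h i).pow 2

theorem cont_gsq {U : Set (E d)} (h : ∀ i, ContinuousOn (gradient (T i)) U) :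
    ContinuousOn (gsq T) U := by
  unfold gsq
  exact continuousOn_finsetSum _ fun i _ => (h i).norm.pow 2

theorem cont_tg {U : Set (E d)} (h : ∀ i, ContinuousOn (T i) U)
    (h' : ∀ i, ContinuousOn (gradient (T i)) U) : ContinuousOn (tg T) U := by
  unfold tg
  exact continuousOn_finsetSum _ fun i _ => (h i).smul (h' i)

theorem cont_G {U : Set (E d)} (h : ∀ i, ContinuousOn (T i) U) : ContinuousOn (G δ T) U := by
  unfold G
  exact (continuousOn_const.add (cont_sq h)).sqrt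

theorem cont_gG {U : Set (E d)} (hδ : 0 < δ) (h : ∀ i, ContinuousOn (T i) U)
    (h' : ∀ i, ContinuousOn (gradient (T i)) U) : ContinuousOn (gG δ T) U := by
  unfold gG
  exact ((cont_G h).inv₀ fun x _ => (G_pos hδ T x).ne').smul (cont_tg h h')

theorem cont_eG {U : Set (E d)} (hδ : 0 < δ) (h : ∀ i, ContinuousOn (T i) U)
    (h' : ∀ i, ContinuousOn (gradient (T i)) U) : ContinuousOn (eG δ T) U := by
  unfold eG
  exact ((cont_gsq h').sub ((cont_gG hδ h h').norm.pow 2)).div (cont_G h)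
    fun x _ => (G_pos hδ T x).ne'

variable {V : Set (E d)}

theorem sm_T (hV : IsOpen V) (h : ∀ i, ContDiffOn ℝ ∞ (T i) (P.Om ∩ V)) (i : ι) :
    ContinuousOn (T i) (P.Om ∩ V) := (h i).continuousOn

theorem sm_g (hV : IsOpen V) (h : ∀ i, ContDiffOn ℝ ∞ (T i) (P.Om ∩ V)) (i : ι) :
    ContinuousOn (gradient (T i)) (P.Om ∩ V) :=
  cont_grad (P.isOpen_Om.inter hV) ((h i).of_le (by exact_mod_cast le_top))

/-- all fields are continuous on `Ω ∩ V` -/
theorem sm_sq (hV : IsOpen V) (h : ∀ i, ContDiffOn ℝ ∞ (T i) (P.Om ∩ V)) :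
    ContinuousOn (sq T) (P.Om ∩ V) := cont_sq (sm_T hV h)

theorem sm_gsq (hV : IsOpen V) (h : ∀ i, ContDiffOn ℝ ∞ (T i) (P.Om ∩ V)) :
    ContinuousOn (gsq T) (P.Om ∩ V) := cont_gsq (sm_g hV h)

theorem sm_tg (hV : IsOpen V) (h : ∀ i, ContDiffOn ℝ ∞ (T i) (P.Om ∩ V)) :
    ContinuousOn (tg T) (P.Om ∩ V) := cont_tg (sm_T hV h) (sm_g hV h)

theorem sm_G (hV : IsOpen V) (h : ∀ i, ContDiffOn ℝ ∞ (T i) (P.Om ∩ V)) :
    ContinuousOn (G δ T) (P.Om ∩ V) := cont_G (sm_T hV h)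

theorem sm_gG (hδ : 0 < δ) (hV : IsOpen V) (h : ∀ i, ContDiffOn ℝ ∞ (T i) (P.Om ∩ V)) :
    ContinuousOn (gG δ T) (P.Om ∩ V) := cont_gG hδ (sm_T hV h) (sm_g hV h)

theorem sm_eG (hδ : 0 < δ) (hV : IsOpen V) (h : ∀ i, ContDiffOn ℝ ∞ (T i) (P.Om ∩ V)) :
    ContinuousOn (eG δ T) (P.Om ∩ V) := cont_eG hδ (sm_T hV h) (sm_g hV h)

/-! ### congruence -/

theorem grad_congr_on {U : Set (E d)} (hU : IsOpen U) {f g : E d → ℝ}
    (h : ∀ x ∈ U, f x = g x) {x : E d} (hx : x ∈ U) : gradient f x = gradient g x :=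
  grad_congr (Filter.eventuallyEq_of_mem (hU.mem_nhds hx) h)

variable {U : Set (E d)}

theorem sq_congr (h : ∀ i, ∀ x ∈ U, T' i x = T i x) (hx : x ∈ U) : sq T' x = sq T x := by
  simp only [sq_def, h _ x hx]

theorem gsq_congr (hU : IsOpen U) (h : ∀ i, ∀ x ∈ U, T' i x = T i x) (hx : x ∈ U) :
    gsq T' x = gsq T x := by
  simp only [gsq, grad_congr_on hU (h _) hx]

theorem tg_congr (hU : IsOpen U) (h : ∀ i, ∀ x ∈ U, T' i x = T i x) (hx : x ∈ U) :
    tg T' x = tg T x := by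
  simp only [tg, grad_congr_on hU (h _) hx, h _ x hx]

theorem G_congr (h : ∀ i, ∀ x ∈ U, T' i x = T i x) (hx : x ∈ U) : G δ T' x = G δ T x := by
  simp only [G, sq_congr h hx]

theorem gG_congr (hU : IsOpen U) (h : ∀ i, ∀ x ∈ U, T' i x = T i x) (hx : x ∈ U) :
    gG δ T' x = gG δ T x := by
  simp only [gG, G_congr h hx, tg_congr hU h hx]

theorem eG_congr (hU : IsOpen U) (h : ∀ i, ∀ x ∈ U, T' i x = T i x) (hx : x ∈ U) :
    eG δ T' x = eG δ T x := by
  simp only [eG, G_congr h hx, gG_congr hU h hx, gsq_congr hU h hx]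

end fields

/-! ### integrals localised to the support -/

theorem setInt_supp {K : Set (E d)} (F : E d → ℝ)
    (hF : ∀ x, x ∉ K → F x = 0) : ∫ x in P.Om, F x = ∫ x in P.Om ∩ K, F x := by
  apply setIntegral_eq_of_subset_of_forall_diff_eq_zero P.measurableSet_Om inter_subset_left
  intro x hx
  exact hF x fun h => hx.2 ⟨hx.1, h⟩

end

end Pool.Agent.Lib_helper81.Robin
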